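import Pool.Agent.H4.Pol.Base

namespace Pool.Agent.H4.Pol

open Set Filter Topology

variable {g o r : ℕ} {J Code : Type} {k F : ℕ} {S : Seed g o r J Code} {h lam : ℝ}

/-- test functional -/
noncomputable def Lt (S : Seed g o r J Code) (k F : ℕ) (lam : ℝ) (i : Fin k) (l : Fin 3)
    (s : Fin r) (b : Fin g → J) (e : Fin o → Bool) : XX g o →ₗ[ℝ] ℝ :=
  Lf (av (ctr (k + F) i + lam * ((l : ℝ) - 1))) (fun j => av (S.par j s (b j)))
    (fun i => sg (e i))

/-- all vertices -/
noncomputable def VV (k F : ℕ) (S : Seed g o r J Code) (h lam : ℝ) (β : Fin k × Fin r → Code) :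
    BI g o r J k F ⊕ (Fin k × Fin r) → XX g o :=
  Sum.elim (Vb k F S h lam) (fun p => S.np lam (ctr (k + F) p.1) p.2 (β p))

section

variable (hS : S.Good) (hs : Small k F S h lam)

include hS hs

lemma fac_pos (i : Fin k) (s : Fin r) (q : Code) :
    0 < S.CC lam (ctr (k + F) i) s q * lam ^ 2 / S.kap s q := by
  have h1 := hS.CC_pos hs.lpos (ctr (k + F) i) s q
  have h2 := hS.kap_pos' s q
  have h3 := hs.lpos
  positivity

omit hS in
/-- the test functional on base vertices is at most one -/
lemma Lt_base_le (i : Fin k) (l : Fin 3) (s : Fin r) (b : Fin g → J) (e : Fin o → Bool)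
    (v : BI g o r J k F) : Lt S k F lam i l s b e (Vb k F S h lam v) ≤ 1 := by
  have hl : |((l : ℝ) - 1)| ≤ 2 := by
    fin_cases l <;> norm_num
  rcases v with q | ⟨j, p, e'⟩ | ⟨i', e'⟩
  · by_cases hq : (i : ℕ) = cq k F q
    · by_cases hq2 : ((l : ℝ) - 1) = uq k F q ∨ ((l : ℝ) - 1) = uq k F q + 1
      · exact (planar_eq hs _ _ q hq hq2).le
      · refine (planar_lt hs _ _ q hl (Or.inr ?_)).le
        push Not at hq2
        have h1 : ∃ z : ℤ, ((l : ℝ) - 1) - uq k F q = z := ⟨(l : ℤ) - 1 - uq k F q, by push_cast; ring⟩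
        obtain ⟨z, hz⟩ := h1
        rw [hz]
        have hz0 : z ≠ 0 := by
          rintro rfl
          apply hq2.1
          have := hz
          simp at this
          linarith
        have hz1 : z ≠ 1 := by
          rintro rfl
          apply hq2.2
          have := hz
          simp at this
          linarith
        have h2 : 0 < z * (z - 1) := by
          rcases lt_or_gt_of_ne hz0 with h | h
          · nlinarith
          · have : 2 ≤ z := by omega
            nlinarith
        exact_mod_cast h2
    · exact (planar_lt hs _ _ q hl (Or.inl hq)).le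
  · by_cases hp : (s, b j) = p
    · exact (block_eq hs _ _ _ j p e' (by rw [← hp])).le
    · refine (block_lt hs _ _ _ j (s, b j) p e' e' 0 (by norm_num) ?_ hp).le
      simp
  · simp only [Lt, Vb]
    rw [Lf_seg]
    exact sg_mul_le _ _

/-- new points of other slots are below every test functional -/
lemma Lt_other_slot (i i' : Fin k) (hi : i' ≠ i) (l : Fin 3) (s s' : Fin r) (b : Fin g → J)
    (e : Fin o → Bool) (q : Code) :
    Lt S k F lam i l s b e (S.np lam (ctr (k + F) i') s' q) < 1 := by
  unfold Lt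
  rw [hS.np_eval hs.lpos]
  have h1 := hs.l2 i' i hi s' q s b e l
  have h2 := hS.CC_pos hs.lpos (ctr (k + F) i') s' q
  have h3 := mul_lt_mul_of_pos_left h1 h2
  have h4 : S.CC lam (ctr (k + F) i') s' q * (lam ^ 2 / S.kap s' q * S.val s b e s' q) =
    (S.CC lam (ctr (k + F) i') s' q * lam ^ 2 / S.kap s' q) * S.val s b e s' q := by ring
  rw [h4] at h3
  unfold Seed.val at h3
  linarith

lemma Lt_same_slot (i : Fin k) (l : Fin 3) (s s' : Fin r) (b : Fin g → J)
    (e : Fin o → Bool) (q : Code) :
    Lt S k F lam i l s b e (S.np lam (ctr (k + F) i) s' q) =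
      1 + (S.CC lam (ctr (k + F) i) s' q * lam ^ 2 / S.kap s' q) *
        (S.val s b e s' q - S.c s' q l) :=
  hS.np_test hs.lpos _ s' q l s b e

lemma Lt_other_class (i : Fin k) (l : Fin 3) (s s' : Fin r) (hss : s' ≠ s) (b : Fin g → J)
    (e : Fin o → Bool) (q : Code) :
    Lt S k F lam i l s b e (S.np lam (ctr (k + F) i) s' q) < 1 := by
  rw [Lt_same_slot hS hs]
  have h1 := fac_pos hS hs i s' q
  have h2 := hS.cross s s' hss.symm b e q l
  nlinarith

lemma Lt_new_lt (β : Fin k × Fin r → Code) (i : Fin k) (l : Fin 3) (s : Fin r) (b : Fin g → J)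
    (e : Fin o → Bool) (p : Fin k × Fin r) (hp : p ≠ (i, s)) :
    Lt S k F lam i l s b e (VV k F S h lam β (.inr p)) < 1 := by
  simp only [VV, Sum.elim_inr]
  obtain ⟨i', s'⟩ := p
  by_cases hi : i' = i
  · subst hi
    exact Lt_other_class hS hs i' l s s' (fun hh => hp (by rw [hh])) b e _
  · exact Lt_other_slot hS hs i i' hi l s s' b e _

omit hS in
/-- A functional constant on the contact set of a test functional is a multiple of it. -/
lemma span_lemma (i : Fin k) (l : Fin 3) (s : Fin r) (b : Fin g → J) (e : Fin o → Bool)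
    (f : XX g o →ₗ[ℝ] ℝ) (c : ℝ)
    (hf : ∀ v : BI g o r J k F, Lt S k F lam i l s b e (Vb k F S h lam v) = 1 →
      f (Vb k F S h lam v) = c) :
    f = c • Lt S k F lam i l s b e := by
  set L := Lt S k F lam i l s b e with hL
  have hG : ∀ v : BI g o r J k F, L (Vb k F S h lam v) = 1 →
      (f - c • L) (Vb k F S h lam v) = 0 := by
    intro v hv
    rw [LinearMap.sub_apply, LinearMap.smul_apply, hf v hv, hv]
    simp
  suffices h0 : f - c • L = 0 from sub_eq_zero.1 h0
  apply LinearMap.prod_ext
  · -- planar component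
    rw [LinearMap.zero_comp]
    have hb : ∀ x : ℝ, |x| ≤ 3 → |ctr (k + F) i + lam * x| < 1 := fun x hx =>
      ctr_bound (by omega) hs.lpos hs.l1 hx
    have h1 := hG (.inl (.inl (i, l.castSucc))) (planar_eq hs _ _ _ (by simp [cq])
      (Or.inr (by simp only [uq, Sum.elim_inl]; push_cast; simp; ring)))
    have h2 := hG (.inl (.inl (i, l.succ))) (planar_eq hs _ _ _ (by simp [cq])
      (Or.inl (by simp only [uq, Sum.elim_inl]; push_cast; simp; ring)))
    have hl : |((l : ℝ) - 1)| ≤ 1 := by fin_cases l <;> norm_num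
    obtain ⟨hl1, hl2⟩ := abs_le.1 hl
    refine lin2 (u := qv (ctr (k + F) i + lam * ((l : ℝ) - 1)) (ctr (k + F) i + lam * ((l : ℝ) - 2)))
      (v := qv (ctr (k + F) i + lam * ((l : ℝ) - 1)) (ctr (k + F) i + lam * (l : ℝ))) ?_ ?_ ?_
    · rw [LinearMap.comp_apply, LinearMap.inl_apply]
      rw [qv_comm]
      convert h1 using 2
      simp only [Vb, uq, cq, Sum.elim_inl]
      push_cast
      congr 1
      simp
      ring_nf
    · rw [LinearMap.comp_apply, LinearMap.inl_apply]
      convert h2 using 2
      simp only [Vb, uq, cq, Sum.elim_inl]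
      push_cast
      congr 1
      simp
      ring_nf
    · apply det_qv
      · exact hb _ (by linarith)
      · exact hb _ (abs_le.2 ⟨by linarith, by linarith⟩)
      · exact hb _ (abs_le.2 ⟨by linarith, by linarith⟩)
      · intro hh
        have := hs.lpos
        nlinarith
  · apply LinearMap.prod_ext
    · apply LinearMap.pi_ext'
      intro j
      rw [LinearMap.zero_comp, LinearMap.zero_comp, LinearMap.zero_comp]
      have h1 := hG (.inr (.inl (j, (s, b j), true))) (block_eq hs _ _ _ j (s, b j) true rfl)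
      have h2 := hG (.inr (.inl (j, (s, b j), false))) (block_eq hs _ _ _ j (s, b j) false rfl)
      refine lin2 (u := qv (S.par j s (b j)) (S.par j s (b j) + sg true * h))
        (v := qv (S.par j s (b j)) (S.par j s (b j) + sg false * h)) ?_ ?_ ?_
      · exact h1
      · exact h2
      · apply det_qv
        · have := hs.h1 j s (b j)
          have := hs.hpos
          linarith
        · exact par_bound hs j s (b j) true
        · exact par_bound hs j s (b j) false
        · have := hs.hpos
          simp only [sg]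
          intro hh
          simp at hh
          linarith
    · apply LinearMap.pi_ext'
      intro i0
      rw [LinearMap.zero_comp, LinearMap.zero_comp, LinearMap.zero_comp]
      have h1 := hG (.inr (.inr (i0, e i0))) (by
        rw [hL]
        simp only [Lt, Vb]
        rw [Lf_seg]
        exact sg_mul_self _)
      apply LinearMap.ext_ring
      have h2 : (f - c • L) ((0, 0, Pi.single i0 (sg (e i0))) : XX g o) = 0 := h1
      have h3 : ((0, 0, Pi.single i0 (sg (e i0))) : XX g o) =
          sg (e i0) • ((0, 0, Pi.single i0 1) : XX g o) := by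
        ext <;> simp [← Pi.single_smul]
      rw [h3, map_smul, smul_eq_mul] at h2
      have h4 : sg (e i0) ≠ 0 := by cases e i0 <;> simp [sg]
      exact (mul_eq_zero.1 h2).resolve_left h4

/-- a base vertex strictly below a test functional -/
lemma exists_low (i : Fin k) (l : Fin 3) (s : Fin r) (b : Fin g → J) (e : Fin o → Bool) :
    ∃ v : BI g o r J k F, Lt S k F lam i l s b e (Vb k F S h lam v) < 1 := by
  have hl : |((l : ℝ) - 1)| ≤ 2 := by
    fin_cases l <;> norm_num
  by_cases h0 : l = 0
  · refine ⟨.inl (.inl (i, 3)), planar_lt hs _ _ _ hl (Or.inr ?_)⟩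
    subst h0
    simp only [uq, Sum.elim_inl]
    norm_num
  · refine ⟨.inl (.inl (i, 0)), planar_lt hs _ _ _ hl (Or.inr ?_)⟩
    fin_cases l
    · exact absurd rfl h0
    · simp only [uq, Sum.elim_inl]
      norm_num
    · simp only [uq, Sum.elim_inl]
      norm_num

lemma VV_full (hk : 1 ≤ k) (hr : 1 ≤ r) [Nonempty J] (β : Fin k × Fin r → Code) :
    Full (VV k F S h lam β) := by
  intro f c hf
  obtain ⟨b⟩ := (inferInstance : Nonempty (Fin g → J))
  have h1 := span_lemma hs ⟨0, hk⟩ 0 ⟨0, hr⟩ b (fun _ => true) f c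
    (fun v _ => hf (.inl v))
  obtain ⟨v, hv⟩ := exists_low hS hs ⟨0, hk⟩ 0 ⟨0, hr⟩ b (fun _ => true)
  have h2 : f (Vb k F S h lam v) = c := hf (.inl v)
  rw [h1, LinearMap.smul_apply, smul_eq_mul] at h2
  have h3 : c = 0 := by
    by_contra hc
    have h4 : Lt S k F lam ⟨0, hk⟩ 0 ⟨0, hr⟩ b (fun _ => true) (Vb k F S h lam v) = 1 := by
      have := mul_left_cancel₀ hc (h2.trans (mul_one c).symm)
      exact this
    exact absurd h4 hv.ne
  rw [h1, h3, zero_smul]

lemma VV_exp (β : Fin k × Fin r → Code) : Exp (VV k F S h lam β) := by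
  classical
  have hnew : ∀ (x : ℝ) (p : Fin k × Fin r),
      Lf (av x) (0 : Fin g → P2) (0 : Fin o → ℝ) (VV k F S h lam β (.inr p)) < 1 := by
    intro x p
    simp only [VV, Sum.elim_inr]
    rw [hS.np_eval hs.lpos]
    have h1 := hS.CC_pos hs.lpos (ctr (k + F) p.1) p.2 (β p)
    have h2 := hS.DD_pos hs.lpos (ctr (k + F) p.1) p.2 (β p) x
    simp only [Pi.zero_apply, dot_zero_left, zero_mul, Finset.sum_const_zero, add_zero, mul_zero]
    have := mul_pos h1 h2
    linarith
  rintro ((q | ⟨j, p, e⟩ | ⟨i0, e⟩) | ⟨i, s⟩)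
  · -- planar
    have hu := uq_bound k F q
    have hu1 : (-2 : ℝ) ≤ uq k F q := by exact_mod_cast hu.1
    have hu2 : (uq k F q : ℝ) ≤ 1 := by exact_mod_cast hu.2
    refine ⟨Lf (av (ctr (k + F) (cq k F q) + lam * ((uq k F q : ℝ) + 1 / 2))) 0 0, ?_⟩
    have hown : 1 < Lf (av (ctr (k + F) (cq k F q) + lam * ((uq k F q : ℝ) + 1 / 2))) 0 0
        (VV k F S h lam β (.inl (.inl q))) := by
      simp only [VV, Sum.elim_inl]
      exact planar_gt hs _ _ q rfl (by ring_nf; norm_num)
    rintro ((q' | ⟨j', p', e'⟩ | ⟨i', e'⟩) | p') hne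
    · refine lt_trans ?_ hown
      simp only [VV, Sum.elim_inl]
      apply planar_lt hs _ _ q' (abs_le.2 ⟨by linarith, by linarith⟩)
      by_cases hc : cq k F q = cq k F q'
      · right
        have hz : uq k F q - uq k F q' ≠ 0 := by
          intro h0
          apply hne
          rw [cu_inj k F hc (by omega)]
        have h2 : 0 < (uq k F q - uq k F q') * (uq k F q - uq k F q') := mul_self_pos.2 hz
        have h3 : (1 : ℝ) ≤ ((uq k F q : ℝ) - uq k F q') * ((uq k F q : ℝ) - uq k F q') := by
          exact_mod_cast h2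
        nlinarith
      · exact Or.inl hc
    · refine lt_trans ?_ hown
      simp only [VV, Sum.elim_inl, Vb]
      rw [Lf_block]
      simp [dot_zero_left]
    · refine lt_trans ?_ hown
      simp only [VV, Sum.elim_inl, Vb]
      rw [Lf_seg]
      simp
    · exact lt_trans (hnew _ _) hown
  · -- blocks
    refine ⟨Lf 0 (Pi.single j (av (S.par j p.1 p.2 + (sg e / 2) * h))) 0, ?_⟩
    have hown : 1 < Lf 0 (Pi.single j (av (S.par j p.1 p.2 + (sg e / 2) * h))) 0
        (VV k F S h lam β (.inl (.inr (.inl (j, p, e))))) := by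
      simp only [VV, Sum.elim_inl]
      exact block_gt hs _ _ _ j p e (by simp)
    rintro ((q' | ⟨j', p', e'⟩ | ⟨i', e'⟩) | ⟨i', s'⟩) hne
    · refine lt_trans ?_ hown
      simp only [VV, Sum.elim_inl, Vb]
      rw [Lf_planar, dot_zero_left]
      norm_num
    · refine lt_trans ?_ hown
      simp only [VV, Sum.elim_inl]
      by_cases hj : j' = j
      · subst hj
        by_cases hp : p = p'
        · subst hp
          exact block_lt' hs _ _ _ j' p e e' (by rintro rfl; exact hne rfl) (by simp)
        · refine block_lt hs _ _ _ j' p p' e e' (sg e / 2) ?_ (by simp) hp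
          cases e <;> simp [sg] <;> norm_num
      · simp only [Vb]
        rw [Lf_block]
        simp [Pi.single_eq_of_ne hj, dot_zero_left]
    · refine lt_trans ?_ hown
      simp only [VV, Sum.elim_inl, Vb]
      rw [Lf_seg]
      simp
    · refine lt_trans ?_ hown
      simp only [VV, Sum.elim_inr]
      rw [hS.np_eval0]
      have h1 := hs.l3 i' s' (β (i', s')) j p e
      rw [Finset.sum_eq_single j]
      · have h2 : S.par j p.1 p.2 + sg e / 2 * h = S.par j p.1 p.2 + sg e * h / 2 := by ring
        simpa [h2] using h1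
      · intro j' _ hj'
        simp [Pi.single_eq_of_ne hj', dot_zero_left]
      · simp
  · -- segments
    refine ⟨Lf 0 0 (Pi.single i0 (sg e)), ?_⟩
    have hown : Lf 0 0 (Pi.single i0 (sg e))
        (VV k F S h lam β (.inl (.inr (.inr (i0, e))))) = 1 := by
      simp only [VV, Sum.elim_inl, Vb]
      rw [Lf_seg]
      simp [sg_mul_self]
    rintro ((q' | ⟨j', p', e'⟩ | ⟨i', e'⟩) | ⟨i', s'⟩) hne
    · rw [hown]
      simp only [VV, Sum.elim_inl, Vb]
      rw [Lf_planar, dot_zero_left]
      norm_num
    · rw [hown]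
      simp only [VV, Sum.elim_inl, Vb]
      rw [Lf_block]
      simp [dot_zero_left]
    · rw [hown]
      simp only [VV, Sum.elim_inl, Vb]
      rw [Lf_seg]
      by_cases hi : i' = i0
      · subst hi
        have he : e ≠ e' := by rintro rfl; exact hne rfl
        simpa using sg_mul_lt he
      · simp [Pi.single_eq_of_ne hi]
    · rw [hown]
      simp only [VV, Sum.elim_inr]
      rw [hS.np_eval0]
      have h1 := hs.l4 i' s' (β (i', s')) i0 e
      rw [Finset.sum_eq_single (f := fun i => (Pi.single i0 (sg e) : Fin o → ℝ) i *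
        S.w0 s' (β (i', s')) i) i0]
      · simpa [dot_zero_left] using h1
      · intro j' _ hj'
        simp [Pi.single_eq_of_ne hj']
      · simp
  · -- new points
    obtain ⟨b, e, hbe⟩ := hS.pos
    refine ⟨Lt S k F lam i 1 s b e, ?_⟩
    have hown : 1 < Lt S k F lam i 1 s b e (VV k F S h lam β (.inr (i, s))) := by
      simp only [VV, Sum.elim_inr]
      rw [Lt_same_slot hS hs]
      have h1 := fac_pos hS hs i s (β (i, s))
      have h2 := hbe s (β (i, s))
      nlinarith
    rintro (v | p) hne
    · exact lt_of_le_of_lt (Lt_base_le hs i 1 s b e v) hown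
    · refine lt_trans (Lt_new_lt hS hs β i 1 s b e p ?_) hown
      rintro rfl
      exact hne rfl

/-- separation of different codes by faces all of whose vertices are base vertices -/
lemma VV_sep (β β' : Fin k × Fin r → Code) (hne : β ≠ β') :
    ∃ T : Set (BI g o r J k F ⊕ (Fin k × Fin r)), T ⊆ range Sum.inl ∧
      ¬ (T ∈ FS (VV k F S h lam β) ↔ T ∈ FS (VV k F S h lam β')) := by
  obtain ⟨⟨i, s⟩, hp⟩ := Function.ne_iff.1 hne
  obtain ⟨b, e, l, hsep⟩ := hS.sep s _ _ hp
  set L := Lt S k F lam i l s b e with hL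
  let T : Set (BI g o r J k F ⊕ (Fin k × Fin r)) :=
    Sum.inl '' {v | L (Vb k F S h lam v) = 1}
  -- if the value is below the threshold then `T` is a face
  have hface : ∀ γ : Fin k × Fin r → Code, S.val s b e s (γ (i, s)) - S.c s (γ (i, s)) l < 0 →
      T ∈ FS (VV k F S h lam γ) := by
    intro γ hγ
    have hnew : ∀ p, L (VV k F S h lam γ (.inr p)) < 1 := by
      intro p
      by_cases hp : p = (i, s)
      · subst hp
        simp only [VV, Sum.elim_inr]
        rw [hL, Lt_same_slot hS hs]
        have h1 := fac_pos hS hs i s (γ (i, s))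
        nlinarith
      · exact Lt_new_lt hS hs γ i l s b e p hp
    refine ⟨L, 1, ?_, ?_, ?_⟩
    · rintro (v | p)
      · exact Lt_base_le hs i l s b e v
      · exact (hnew p).le
    · ext v
      constructor
      · rintro ⟨w, hw, rfl⟩
        exact hw
      · intro hv
        rcases v with v | p
        · exact ⟨v, hv, rfl⟩
        · exact absurd hv (hnew p).ne
    · refine ⟨.inl (.inl (.inl (i, l.castSucc))), ?_⟩
      refine ⟨_, ?_, rfl⟩
      exact planar_eq hs _ _ _ (by simp [cq])
        (Or.inr (by simp only [uq, Sum.elim_inl]; push_cast; simp; ring))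
  -- otherwise it is not
  have hnface : ∀ γ : Fin k × Fin r → Code, 0 < S.val s b e s (γ (i, s)) - S.c s (γ (i, s)) l →
      T ∉ FS (VV k F S h lam γ) := by
    rintro γ hγ ⟨f, c, hle, hT, -⟩
    have h1 : f = c • L := by
      apply span_lemma hs i l s b e f c
      intro v hv
      have : (.inl v : BI g o r J k F ⊕ (Fin k × Fin r)) ∈ T := ⟨v, hv, rfl⟩
      rw [hT] at this
      exact this
    obtain ⟨v, hv⟩ := exists_low hS hs i l s b e
    have hN : 1 < L (VV k F S h lam γ (.inr (i, s))) := by
      simp only [VV, Sum.elim_inr]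
      rw [hL, Lt_same_slot hS hs]
      have h1 := fac_pos hS hs i s (γ (i, s))
      nlinarith
    have h2 := hle (.inr (i, s))
    have h3 := hle (.inl v)
    rw [h1, LinearMap.smul_apply, smul_eq_mul] at h2 h3
    have hv' : L (VV k F S h lam γ (.inl v)) < 1 := hv
    have hc : c = 0 := by
      rcases lt_trichotomy c 0 with hc | hc | hc
      · nlinarith
      · exact hc
      · nlinarith
    have h4 : (.inr (i, s) : BI g o r J k F ⊕ (Fin k × Fin r)) ∈ T := by
      rw [hT, h1, hc]
      simp
    obtain ⟨w, -, hw⟩ := h4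
    cases hw
  refine ⟨T, image_subset_range _ _, ?_⟩
  rcases lt_trichotomy (S.val s b e s (β (i, s)) - S.c s (β (i, s)) l) 0 with h1 | h1 | h1
  · have h2 : 0 < S.val s b e s (β' (i, s)) - S.c s (β' (i, s)) l := by nlinarith
    intro hiff
    exact hnface β' h2 (hiff.1 (hface β h1))
  · rw [h1, zero_mul] at hsep
    exact absurd hsep (lt_irrefl _)
  · have h2 : S.val s b e s (β' (i, s)) - S.c s (β' (i, s)) l < 0 := by nlinarith
    intro hiff
    exact hnface β h1 (hiff.2 (hface β' h2))

end

end Pool.Agent.H4.Pol
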