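import Pool.Agent.H4.Pol.Points

namespace Pool.Agent.H4.Pol

open Set Filter Topology

/-- centres of the slots -/
noncomputable def ctr (N n : ℕ) : ℝ := ((n : ℝ) + 1) / (N + 2)

lemma ctr_bound {N n : ℕ} (hn : n < N) {lam x : ℝ} (hl : 0 < lam) (hl1 : 8 * lam < 1 / ((N : ℝ) + 2))
    (hx : |x| ≤ 3) : |ctr N n + lam * x| < 1 := by
  have hN : (0 : ℝ) < (N : ℝ) + 2 := by positivity
  have h1 : (n : ℝ) + 1 ≤ N := by exact_mod_cast hn
  have h2 : ctr N n ≤ 1 - 2 * (1 / ((N : ℝ) + 2)) := by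
    unfold ctr
    rw [div_le_iff₀ hN]
    field_simp
    linarith
  have h3 : 0 < ctr N n := by unfold ctr; positivity
  have h4 : |lam * x| < 1 / ((N : ℝ) + 2) := by
    rw [abs_mul, abs_of_pos hl]
    nlinarith
  have h5 := abs_lt.1 h4
  have h6 : 1 / ((N : ℝ) + 2) < 1 := by
    rw [div_lt_one hN]
    have : (0 : ℝ) ≤ N := Nat.cast_nonneg N
    linarith
  rw [abs_lt]
  constructor <;> linarith

lemma ctr_sep {N n m : ℕ} (hnm : n ≠ m) {lam x y : ℝ} (hl : 0 < lam)
    (hl1 : 8 * lam < 1 / ((N : ℝ) + 2)) (hx : |x| ≤ 6) (hy : |y| ≤ 6) :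
    0 < (ctr N n - ctr N m + lam * x) * (ctr N n - ctr N m + lam * y) := by
  have hN : (0 : ℝ) < (N : ℝ) + 2 := by positivity
  have h1 : ctr N n - ctr N m = ((n : ℝ) - m) * (1 / ((N : ℝ) + 2)) := by unfold ctr; ring
  have hx' : |lam * x| < 1 / ((N : ℝ) + 2) := by
    rw [abs_mul, abs_of_pos hl]; nlinarith
  have hy' : |lam * y| < 1 / ((N : ℝ) + 2) := by
    rw [abs_mul, abs_of_pos hl]; nlinarith
  obtain ⟨hx1, hx2⟩ := abs_lt.1 hx'
  obtain ⟨hy1, hy2⟩ := abs_lt.1 hy'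
  have hd : 0 < 1 / ((N : ℝ) + 2) := by positivity
  rcases lt_or_gt_of_ne hnm with h | h
  · have h2 : (n : ℝ) + 1 ≤ m := by exact_mod_cast h
    have h3 : ctr N n - ctr N m ≤ - (1 / ((N : ℝ) + 2)) := by
      rw [h1]; nlinarith
    exact mul_pos_of_neg_of_neg (by linarith) (by linarith)
  · have h2 : (m : ℝ) + 1 ≤ n := by exact_mod_cast h
    have h3 : 1 / ((N : ℝ) + 2) ≤ ctr N n - ctr N m := by
      rw [h1]; nlinarith
    exact mul_pos (by linarith) (by linarith)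

variable {g o r : ℕ} {J Code : Type} (k F : ℕ)

/-- indices of planar vertices -/
abbrev QI := (Fin k × Fin 4) ⊕ Fin F

def cq : QI k F → ℕ := Sum.elim (fun p => (p.1 : ℕ)) (fun f => k + (f : ℕ))

def uq : QI k F → ℤ := Sum.elim (fun p => ((p.2 : ℕ) : ℤ) - 2) (fun _ => 0)

lemma cq_lt (q : QI k F) : cq k F q < k + F := by
  rcases q with ⟨i, n⟩ | f
  · simp only [cq, Sum.elim_inl]; omega
  · simp only [cq, Sum.elim_inr]; omega

lemma uq_bound (q : QI k F) : -2 ≤ uq k F q ∧ uq k F q ≤ 1 := by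
  rcases q with ⟨i, n⟩ | f
  · simp only [uq, Sum.elim_inl]; omega
  · simp only [uq, Sum.elim_inr]; omega

lemma cu_inj {q q' : QI k F} (h1 : cq k F q = cq k F q') (h2 : uq k F q = uq k F q') :
    q = q' := by
  rcases q with ⟨i, n⟩ | f <;> rcases q' with ⟨i', n'⟩ | f'
  · simp only [cq, uq, Sum.elim_inl] at h1 h2
    have : i = i' := Fin.ext h1
    have : n = n' := Fin.ext (by omega)
    subst_vars; rfl
  · simp only [cq, Sum.elim_inl, Sum.elim_inr] at h1; omega
  · simp only [cq, Sum.elim_inl, Sum.elim_inr] at h1; omega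
  · simp only [cq, Sum.elim_inr] at h1
    have : f = f' := Fin.ext (by omega)
    subst_vars; rfl

/-- indices of the base vertices -/
abbrev BI (g o r : ℕ) (J : Type) (k F : ℕ) :=
  QI k F ⊕ ((Fin g × (Fin r × J) × Bool) ⊕ (Fin o × Bool))

/-- base vertices -/
noncomputable def Vb (S : Seed g o r J Code) (h lam : ℝ) : BI g o r J k F → XX g o
  | .inl q => (qv (ctr (k + F) (cq k F q) + lam * (uq k F q))
      (ctr (k + F) (cq k F q) + lam * (uq k F q + 1)), 0, 0)
  | .inr (.inl (j, sa, e)) =>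
      (0, Pi.single j (qv (S.par j sa.1 sa.2) (S.par j sa.1 sa.2 + sg e * h)), 0)
  | .inr (.inr (i, e)) => (0, 0, Pi.single i (sg e))

/-- the smallness conditions -/
structure Small (S : Seed g o r J Code) (h lam : ℝ) : Prop where
  hpos : 0 < h
  h1 : ∀ j s a, |S.par j s a| + h < 1
  h2 : ∀ j (p p' : Fin r × J), p ≠ p' → 2 * h < |S.par j p.1 p.2 - S.par j p'.1 p'.2|
  lpos : 0 < lam
  l1 : 8 * lam < 1 / (((k + F : ℕ) : ℝ) + 2)
  l2 : ∀ (i i' : Fin k), i ≠ i' → ∀ s q s' b e (l : Fin 3),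
    lam ^ 2 / S.kap s q * S.val s' b e s q <
      S.DD lam (ctr (k + F) i) s q (ctr (k + F) i' + lam * ((l : ℝ) - 1))
  l3 : ∀ (i : Fin k) s q j (p : Fin r × J) e,
    (S.CC lam (ctr (k + F) i) s q * lam ^ 2 / S.kap s q) *
      dot (av (S.par j p.1 p.2 + sg e * h / 2)) (S.w s q j) < 1
  l4 : ∀ (i : Fin k) s q i0 e,
    (S.CC lam (ctr (k + F) i) s q * lam ^ 2 / S.kap s q) * (sg e * S.w0 s q i0) < 1

variable {k F} {S : Seed g o r J Code} {h lam : ℝ}

section values

variable (hs : Small k F S h lam)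

include hs

lemma planar_val {n : ℕ} {t : ℝ} (A : Fin g → P2) (b : Fin o → ℝ) (q : QI k F) :
    Lf (av (ctr (k + F) n + lam * t)) A b (Vb k F S h lam (.inl q)) =
      1 - (ctr (k + F) n - ctr (k + F) (cq k F q) + lam * (t - uq k F q)) *
        (ctr (k + F) n - ctr (k + F) (cq k F q) + lam * (t - uq k F q - 1)) /
        (1 + (ctr (k + F) (cq k F q) + lam * (uq k F q)) *
          (ctr (k + F) (cq k F q) + lam * (uq k F q + 1))) ∧
      0 < (1 + (ctr (k + F) (cq k F q) + lam * (uq k F q)) *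
          (ctr (k + F) (cq k F q) + lam * (uq k F q + 1))) := by
  have hu := uq_bound k F q
  have hu1 : (-2 : ℝ) ≤ uq k F q := by exact_mod_cast hu.1
  have hu2 : (uq k F q : ℝ) ≤ 1 := by exact_mod_cast hu.2
  have hp : 0 < (1 + (ctr (k + F) (cq k F q) + lam * (uq k F q)) *
          (ctr (k + F) (cq k F q) + lam * (uq k F q + 1))) := by
    apply one_add_pos
    · exact ctr_bound (cq_lt k F q) hs.lpos hs.l1 (abs_le.2 ⟨by linarith, by linarith⟩)
    · exact ctr_bound (cq_lt k F q) hs.lpos hs.l1 (abs_le.2 ⟨by linarith, by linarith⟩)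
  refine ⟨?_, hp⟩
  simp only [Vb]
  rw [Lf_planar, dot_av_qv hp.ne']
  congr 2
  ring

lemma planar_lt {n : ℕ} {t : ℝ} (A : Fin g → P2) (b : Fin o → ℝ) (q : QI k F) (ht : |t| ≤ 2)
    (hq : n ≠ cq k F q ∨ 0 < (t - uq k F q) * (t - uq k F q - 1)) :
    Lf (av (ctr (k + F) n + lam * t)) A b (Vb k F S h lam (.inl q)) < 1 := by
  obtain ⟨h1, h2⟩ := planar_val hs A b q (n := n) (t := t)
  rw [h1]
  have hu := uq_bound k F q
  have hu1 : (-2 : ℝ) ≤ uq k F q := by exact_mod_cast hu.1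
  have hu2 : (uq k F q : ℝ) ≤ 1 := by exact_mod_cast hu.2
  obtain ⟨ht1, ht2⟩ := abs_le.1 ht
  have h3 : 0 < (ctr (k + F) n - ctr (k + F) (cq k F q) + lam * (t - uq k F q)) *
        (ctr (k + F) n - ctr (k + F) (cq k F q) + lam * (t - uq k F q - 1)) := by
    by_cases hn : n = cq k F q
    · have h4 := hq.resolve_left (fun h => h hn)
      rw [hn]
      have := mul_pos (mul_pos hs.lpos hs.lpos) h4
      nlinarith
    · exact ctr_sep hn hs.lpos hs.l1 (abs_le.2 ⟨by linarith, by linarith⟩)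
        (abs_le.2 ⟨by linarith, by linarith⟩)
  have := div_pos h3 h2
  linarith

lemma planar_eq {n : ℕ} {t : ℝ} (A : Fin g → P2) (b : Fin o → ℝ) (q : QI k F)
    (hq : n = cq k F q) (ht : t = uq k F q ∨ t = uq k F q + 1) :
    Lf (av (ctr (k + F) n + lam * t)) A b (Vb k F S h lam (.inl q)) = 1 := by
  obtain ⟨h1, h2⟩ := planar_val hs A b q (n := n) (t := t)
  rw [h1, hq]
  rcases ht with ht | ht <;> rw [ht] <;> simp

lemma planar_gt {n : ℕ} {t : ℝ} (A : Fin g → P2) (b : Fin o → ℝ) (q : QI k F)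
    (hq : n = cq k F q) (ht : (t - uq k F q) * (t - uq k F q - 1) < 0) :
    1 < Lf (av (ctr (k + F) n + lam * t)) A b (Vb k F S h lam (.inl q)) := by
  obtain ⟨h1, h2⟩ := planar_val hs A b q (n := n) (t := t)
  rw [h1, hq]
  have h3 : (ctr (k + F) (cq k F q) - ctr (k + F) (cq k F q) + lam * (t - uq k F q)) *
        (ctr (k + F) (cq k F q) - ctr (k + F) (cq k F q) + lam * (t - uq k F q - 1)) < 0 := by
    have := mul_pos (mul_pos hs.lpos hs.lpos) (neg_pos.2 ht)
    nlinarith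
  have := div_neg_of_neg_of_pos h3 h2
  linarith

lemma par_bound (j : Fin g) (s : Fin r) (a : J) (e : Bool) : |S.par j s a + sg e * h| < 1 := by
  have h1 := hs.h1 j s a
  have h2 := hs.hpos
  have h3 : |sg e * h| ≤ h := by
    cases e <;> simp [sg, abs_of_pos h2]
  exact (abs_add_le _ _).trans_lt (by linarith)

lemma block_val (n : P2) (A : Fin g → P2) (b : Fin o → ℝ) (j : Fin g) (p : Fin r × J)
    (e : Bool) {x : ℝ} (hA : A j = av x) :
    Lf n A b (Vb k F S h lam (.inr (.inl (j, p, e)))) =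
      1 - (x - S.par j p.1 p.2) * (x - S.par j p.1 p.2 - sg e * h) /
        (1 + S.par j p.1 p.2 * (S.par j p.1 p.2 + sg e * h)) ∧
      0 < (1 + S.par j p.1 p.2 * (S.par j p.1 p.2 + sg e * h)) := by
  have hp : 0 < (1 + S.par j p.1 p.2 * (S.par j p.1 p.2 + sg e * h)) := by
    apply one_add_pos _ (par_bound hs j p.1 p.2 e)
    have := hs.h1 j p.1 p.2
    have := hs.hpos
    linarith
  refine ⟨?_, hp⟩
  simp only [Vb]
  rw [Lf_block, hA, dot_av_qv hp.ne']
  congr 2
  ring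

lemma block_lt (n : P2) (A : Fin g → P2) (b : Fin o → ℝ) (j : Fin g) (p p' : Fin r × J)
    (e e' : Bool) (t : ℝ) (ht : |t| ≤ 1 / 2) (hA : A j = av (S.par j p.1 p.2 + t * h))
    (hpp : p ≠ p') :
    Lf n A b (Vb k F S h lam (.inr (.inl (j, p', e')))) < 1 := by
  obtain ⟨h1, h2⟩ := block_val hs n A b j p' e' hA
  rw [h1]
  have h3 := hs.h2 j p p' hpp
  have hh := hs.hpos
  obtain ⟨ht1, ht2⟩ := abs_le.1 ht
  have h4 : 0 < (S.par j p.1 p.2 + t * h - S.par j p'.1 p'.2) *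
      (S.par j p.1 p.2 + t * h - S.par j p'.1 p'.2 - sg e' * h) := by
    have hth : |t * h| ≤ h / 2 := by
      rw [abs_mul, abs_of_pos hh]; nlinarith
    have hth' := abs_le.1 hth
    have he : sg e' * h ≤ h ∧ -h ≤ sg e' * h := by
      cases e' <;> simp [sg] <;> linarith
    rcases lt_abs.1 h3 with h5 | h5
    · exact mul_pos (by linarith) (by linarith)
    · exact mul_pos_of_neg_of_neg (by linarith) (by linarith)
  have := div_pos h4 h2
  linarith

lemma block_eq (n : P2) (A : Fin g → P2) (b : Fin o → ℝ) (j : Fin g) (p : Fin r × J)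
    (e : Bool) (hA : A j = av (S.par j p.1 p.2)) :
    Lf n A b (Vb k F S h lam (.inr (.inl (j, p, e)))) = 1 := by
  obtain ⟨h1, h2⟩ := block_val hs n A b j p e hA
  rw [h1]; simp

lemma block_gt (n : P2) (A : Fin g → P2) (b : Fin o → ℝ) (j : Fin g) (p : Fin r × J)
    (e : Bool) (hA : A j = av (S.par j p.1 p.2 + (sg e / 2) * h)) :
    1 < Lf n A b (Vb k F S h lam (.inr (.inl (j, p, e)))) := by
  obtain ⟨h1, h2⟩ := block_val hs n A b j p e hA
  rw [h1]
  have hh := hs.hpos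
  have h3 : (S.par j p.1 p.2 + (sg e / 2) * h - S.par j p.1 p.2) *
      (S.par j p.1 p.2 + (sg e / 2) * h - S.par j p.1 p.2 - sg e * h) < 0 := by
    have h4 : (S.par j p.1 p.2 + (sg e / 2) * h - S.par j p.1 p.2) *
      (S.par j p.1 p.2 + (sg e / 2) * h - S.par j p.1 p.2 - sg e * h) =
      - (sg e * sg e) * (h * h) / 4 := by ring
    rw [h4, sg_mul_self]
    have := mul_pos hh hh
    linarith
  have := div_neg_of_neg_of_pos h3 h2
  linarith

lemma block_lt' (n : P2) (A : Fin g → P2) (b : Fin o → ℝ) (j : Fin g) (p : Fin r × J)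
    (e e' : Bool) (he : e ≠ e') (hA : A j = av (S.par j p.1 p.2 + (sg e / 2) * h)) :
    Lf n A b (Vb k F S h lam (.inr (.inl (j, p, e')))) < 1 := by
  obtain ⟨h1, h2⟩ := block_val hs n A b j p e' hA
  rw [h1]
  have hh := hs.hpos
  have h3 : 0 < (S.par j p.1 p.2 + (sg e / 2) * h - S.par j p.1 p.2) *
      (S.par j p.1 p.2 + (sg e / 2) * h - S.par j p.1 p.2 - sg e' * h) := by
    have h4 : (S.par j p.1 p.2 + (sg e / 2) * h - S.par j p.1 p.2) *
      (S.par j p.1 p.2 + (sg e / 2) * h - S.par j p.1 p.2 - sg e' * h) =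
      (sg e * sg e / 4 - sg e * sg e' / 2) * (h * h) := by ring
    rw [h4, sg_mul_self]
    have h5 : sg e * sg e' = -1 := by
      cases e <;> cases e' <;> simp_all [sg]
    rw [h5]
    have := mul_pos hh hh
    nlinarith
  have := div_pos h3 h2
  linarith

end values

end Pool.Agent.H4.Pol
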