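import Pool.Agent.H4.Pol.Exists

namespace Pool.Agent.H4.Pol

open Set Filter Topology

/-- indices of the thresholds encoded in one new vertex -/
abbrev IdxC (g o : ℕ) := (Fin g × Bool) ⊕ (Fin o ⊕ Bool)

/-- codes -/
abbrev Cd (g o B : ℕ) := IdxC g o → Fin (B ^ g)

namespace Conc

variable (g o r B : ℕ)

noncomputable def tau : ℝ := 1 / (8 * g * r)

noncomputable def off (κ : Fin 3) : ℝ := ![tau g r / 2, tau g r, -tau g r] κ

noncomputable def ms (s : Fin r) : ℝ := (s : ℝ) / (2 * r)

noncomputable def par (ε : ℝ) (j : Fin g) (s : Fin r) (a : Fin 3 × Fin B) : ℝ :=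
  ms r s + off g r a.1 + ε * (-((a.2 : ℝ) * (B : ℝ) ^ (j : ℕ)) / (2 * off g r a.1))

variable {g o r B}

noncomputable def Th (q : Cd g o B) (i : IdxC g o) : ℝ := (q i : ℝ) + 1 / 2

variable (r)

noncomputable def xx (q : Cd g o B) (j : Fin g) : ℝ :=
  (Th q (.inl (j, false)) - Th q (.inl (j, true))) / (2 * tau g r)

noncomputable def yy (q : Cd g o B) (j : Fin g) : ℝ :=
  (-Th q (.inl (j, true)) - xx r q j * (tau g r / 2)) / (3 / 4 * tau g r ^ 2)

noncomputable def zz [NeZero g] (q : Cd g o B) (i : Fin o) : ℝ :=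
  (Th q (.inr (.inl i)) - Th q (.inl (0, true))) / 2

noncomputable def Vc [NeZero g] (q : Cd g o B) : ℝ :=
  ∑ j, (xx r q j * (tau g r / 2) + yy r q j * (tau g r / 2) ^ 2) + ∑ i, zz q i

noncomputable def EE (ε : ℝ) (s : Fin r) (q : Cd g o B) (j : Fin g) : ℝ :=
  1 + ms r s ^ 2 + ε * (xx r q j * ms r s - yy r q j * ms r s ^ 2 - yy r q j)

variable (g) in
noncomputable def th (l : Fin 3) : ℝ :=
  ![g * (tau g r / 2) ^ 2, (g - 1) * (tau g r / 2) ^ 2 + tau g r ^ 2,
    g * (tau g r / 2) ^ 2] l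

noncomputable def gm [NeZero g] (q : Cd g o B) (l : Fin 3) : ℝ :=
  ![Vc r q + Th q (.inr (.inr false)), Vc r q, Vc r q + Th q (.inr (.inr true))] l

variable (g o B) in
/-- the concrete seed -/
noncomputable def seed [NeZero g] (ε : ℝ) : Seed g o r (Fin 3 × Fin B) (Cd g o B) where
  par := par g r B ε
  w := fun s q j => (2 * ms r s + ε * (xx r q j - 2 * ms r s * yy r q j), -1 + ε * yy r q j)
  w0 := fun _ q i => ε * zz q i
  c := fun s q l => ∑ j, EE r ε s q j - th g r l + ε * gm r q l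

variable {r}

lemma val_sub [NeZero g] (ε : ℝ) (s s' : Fin r) (b : Fin g → Fin 3 × Fin B) (e : Fin o → Bool)
    (q : Cd g o B) (l : Fin 3) :
    (seed g o r B ε).val s b e s' q - (seed g o r B ε).c s' q l =
      ∑ j, (-(par g r B ε j s (b j) - ms r s') ^ 2 +
        ε * (xx r q j * (par g r B ε j s (b j) - ms r s') +
          yy r q j * (par g r B ε j s (b j) - ms r s') ^ 2)) + th g r l +
        ε * (∑ i, sg (e i) * zz q i - gm r q l) := by
  simp only [Seed.val, seed]
  have h1 : ∀ j, dot (av (par g r B ε j s (b j)))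
      (2 * ms r s' + ε * (xx r q j - 2 * ms r s' * yy r q j), -1 + ε * yy r q j) =
      EE r ε s' q j + (-(par g r B ε j s (b j) - ms r s') ^ 2 +
        ε * (xx r q j * (par g r B ε j s (b j) - ms r s') +
          yy r q j * (par g r B ε j s (b j) - ms r s') ^ 2)) := by
    intro j
    simp only [dot, av, EE]
    ring
  rw [Finset.sum_congr rfl fun j _ => h1 j, Finset.sum_add_distrib]
  have h2 : ∑ i, sg (e i) * (ε * zz q i) = ε * ∑ i, sg (e i) * zz q i := by
    rw [Finset.mul_sum]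
    refine Finset.sum_congr rfl fun i _ => ?_
    ring
  rw [h2]
  ring

lemma tau_pos (hg : 1 ≤ g) (hr : 1 ≤ r) : 0 < tau g r := by
  have : (0 : ℝ) < g := by exact_mod_cast hg
  have : (0 : ℝ) < r := by exact_mod_cast hr
  unfold tau
  positivity

lemma tau_le (hg : 1 ≤ g) (hr : 1 ≤ r) : tau g r ≤ 1 / 8 := by
  have h1 : (1 : ℝ) ≤ g := by exact_mod_cast hg
  have h2 : (1 : ℝ) ≤ r := by exact_mod_cast hr
  unfold tau
  apply one_div_le_one_div_of_le (by norm_num)
  nlinarith

lemma off_abs (hg : 1 ≤ g) (hr : 1 ≤ r) (κ : Fin 3) : |off g r κ| ≤ tau g r := by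
  have h := tau_pos hg hr
  fin_cases κ
  · have h1 : |tau g r / 2| = tau g r / 2 := abs_of_pos (by linarith)
    simp only [off]
    simp [h1]
    linarith
  · simp [off, abs_of_pos h]
  · simp [off, abs_of_pos h]

lemma off_ne (hg : 1 ≤ g) (hr : 1 ≤ r) (κ : Fin 3) : off g r κ ≠ 0 := by
  have h := (tau_pos hg hr).ne'
  fin_cases κ <;> simp [off, h]

lemma off_inj (hg : 1 ≤ g) (hr : 1 ≤ r) {κ κ' : Fin 3} (h : off g r κ = off g r κ') : κ = κ' := by
  have h0 := tau_pos hg hr
  fin_cases κ <;> fin_cases κ' <;> simp [off] at h ⊢ <;> linarith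

lemma ms_bound (hr : 1 ≤ r) (s : Fin r) : 0 ≤ ms r s ∧ ms r s ≤ 1 / 2 := by
  have h2 : (0 : ℝ) < r := by exact_mod_cast hr
  have h3 : ((s : ℕ) : ℝ) ≤ r := by exact_mod_cast s.2.le
  unfold ms
  constructor
  · positivity
  · rw [div_le_iff₀ (by positivity)]
    linarith

lemma ms_sep (hg : 1 ≤ g) (hr : 1 ≤ r) {s s' : Fin r} (h : s ≠ s') :
    4 * g * tau g r ≤ |ms r s - ms r s'| := by
  have h1 : (0 : ℝ) < g := by exact_mod_cast hg
  have h2 : (0 : ℝ) < r := by exact_mod_cast hr
  have h3 : 4 * g * tau g r = 1 / (2 * r) := by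
    unfold tau
    field_simp
    norm_num
  have h4 : ms r s - ms r s' = ((s : ℝ) - s') * (1 / (2 * r)) := by
    unfold ms; ring
  rw [h3, h4, abs_mul, abs_of_pos (a := 1 / (2 * (r : ℝ))) (by positivity)]
  have h5 : (1 : ℝ) ≤ |((s : ℕ) : ℝ) - ((s' : ℕ) : ℝ)| := by
    have h6 : ((s : ℕ) : ℤ) - ((s' : ℕ) : ℤ) ≠ 0 := by
      intro h7
      apply h
      apply Fin.ext
      omega
    have h7 := Int.one_le_abs h6
    exact_mod_cast h7
  have h6 : (0 : ℝ) < 1 / (2 * r) := by positivity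
  nlinarith

/-- `|m_s + off - m_{s'}| ≥ 3 τ` -/
lemma cross_sq (hg : 1 ≤ g) (hr : 1 ≤ r) {s s' : Fin r} (h : s ≠ s') (κ : Fin 3) :
    9 * tau g r ^ 2 ≤ (ms r s + off g r κ - ms r s') ^ 2 := by
  have h1 := ms_sep hg hr h
  have h2 := off_abs hg hr κ
  have h3 : (1 : ℝ) ≤ g := by exact_mod_cast hg
  have h4 := tau_pos hg hr
  have h5 : 3 * tau g r ≤ |ms r s + off g r κ - ms r s'| := by
    have h6 : |ms r s - ms r s'| ≤ |ms r s + off g r κ - ms r s'| + |off g r κ| := by
      have := abs_sub (ms r s + off g r κ - ms r s') (off g r κ)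
      have h7 : ms r s + off g r κ - ms r s' - off g r κ = ms r s - ms r s' := by ring
      rw [h7] at this
      exact this
    nlinarith
  rw [← sq_abs (ms r s + off g r κ - ms r s')]
  nlinarith

lemma th_le (hg : 1 ≤ g) (l : Fin 3) : th g r l ≤ g * tau g r ^ 2 := by
  have h3 : (1 : ℝ) ≤ g := by exact_mod_cast hg
  have h4 := sq_nonneg (tau g r)
  fin_cases l
  · simp [th]; nlinarith
  · simp [th]; nlinarith
  · simp [th]; nlinarith

lemma ev_cross [NeZero g] (hg : 1 ≤ g) (hr : 1 ≤ r) :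
    ∀ᶠ ε in 𝓝[>] (0 : ℝ), ∀ s s' : Fin r, s ≠ s' → ∀ b e (q : Cd g o B) l,
      (seed g o r B ε).val s b e s' q < (seed g o r B ε).c s' q l := by
  rw [eventually_all]; intro s
  rw [eventually_all]; intro s'
  by_cases hss : s = s'
  · exact Eventually.of_forall fun _ h => absurd hss h
  refine Eventually.mono (p := fun ε => ∀ b e (q : Cd g o B) l,
      (seed g o r B ε).val s b e s' q < (seed g o r B ε).c s' q l) ?_ fun _ h _ => h
  rw [eventually_all]; intro b
  rw [eventually_all]; intro e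
  rw [eventually_all]; intro q
  rw [eventually_all]; intro l
  have h1 : ∀ᶠ ε in 𝓝[>] (0 : ℝ), (seed g o r B ε).val s b e s' q -
      (seed g o r B ε).c s' q l < 0 := by
    simp_rw [val_sub]
    apply ev_lt
    · unfold par
      fun_prop
    · simp only [par, zero_mul, add_zero]
      have h2 : ∑ j : Fin g, (-(ms r s + off g r (b j).1 - ms r s') ^ 2) ≤
          ∑ j : Fin g, (-(9 * tau g r ^ 2)) :=
        Finset.sum_le_sum fun j _ => neg_le_neg (cross_sq hg hr hss _)
      rw [Finset.sum_const, Finset.card_univ, Fintype.card_fin, nsmul_eq_mul] at h2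
      have h3 := th_le (r := r) hg l
      have h4 := tau_pos hg hr
      have h5 : (1 : ℝ) ≤ g := by exact_mod_cast hg
      have h6 : 0 < (g : ℝ) * tau g r ^ 2 := by positivity
      linarith
  exact h1.mono fun ε h => by linarith

lemma ev_par_lt (hg : 1 ≤ g) (hr : 1 ≤ r) :
    ∀ᶠ ε in 𝓝[>] (0 : ℝ), ∀ (j : Fin g) (s : Fin r) (a : Fin 3 × Fin B),
      |par g r B ε j s a| < 1 := by
  rw [eventually_all]; intro j
  rw [eventually_all]; intro s
  rw [eventually_all]; intro a
  apply ev_lt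
  · unfold par
    fun_prop
  · simp only [par, zero_mul, add_zero]
    have h1 := ms_bound hr s
    have h2 := off_abs hg hr a.1
    have h3 := tau_le hg hr
    obtain ⟨h4, h5⟩ := abs_le.1 h2
    rw [abs_lt]
    constructor <;> linarith

lemma ev_par_inj (hg : 1 ≤ g) (hr : 1 ≤ r) :
    ∀ᶠ ε in 𝓝[>] (0 : ℝ), ∀ (j : Fin g) (s : Fin r) (a : Fin 3 × Fin B) (s' : Fin r)
      (a' : Fin 3 × Fin B), par g r B ε j s a = par g r B ε j s' a' → s = s' ∧ a = a' := by
  have hpos : ∀ᶠ ε in 𝓝[>] (0 : ℝ), 0 < ε := self_mem_nhdsWithin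
  rw [eventually_all]; intro j
  rw [eventually_all]; intro s
  rw [eventually_all]; intro a
  rw [eventually_all]; intro s'
  rw [eventually_all]; intro a'
  by_cases h0 : s = s' ∧ a.1 = a'.1
  · obtain ⟨rfl, h1⟩ := h0
    refine hpos.mono fun ε hε h => ⟨rfl, ?_⟩
    have h2 : ε ≠ 0 := hε.ne'
    unfold par at h
    rw [h1] at h
    have h3 := mul_left_cancel₀ h2 (add_left_cancel h)
    have h4 := off_ne hg hr a'.1
    have h5 : (2 * off g r a'.1) ≠ 0 := mul_ne_zero two_ne_zero h4
    rw [div_left_inj' h5, neg_inj] at h3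
    have hB : (0 : ℝ) < B := by
      have : 0 < B := lt_of_le_of_lt (Nat.zero_le _) a.2.2
      exact_mod_cast this
    have h6 := mul_right_cancel₀ (pow_pos hB _).ne' h3
    have h7 : (a.2 : ℕ) = (a'.2 : ℕ) := by exact_mod_cast h6
    exact Prod.ext h1 (Fin.ext h7)
  · have h1 : ∀ᶠ ε in 𝓝[>] (0 : ℝ), par g r B ε j s a - par g r B ε j s' a' ≠ 0 := by
      apply ev_ne
      · unfold par
        fun_prop
      · simp only [par, zero_mul, add_zero]
        intro h2
        apply h0
        have hτ := tau_pos hg hr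
        have h3 := off_abs hg hr a.1
        have h4 := off_abs hg hr a'.1
        have h5 : (1 : ℝ) ≤ g := by exact_mod_cast hg
        have hss : s = s' := by
          by_contra hne
          have h6 := ms_sep hg hr hne
          have h7 : ms r s - ms r s' = off g r a'.1 - off g r a.1 := by linarith
          rw [h7] at h6
          have h8 := abs_sub (off g r a'.1) (off g r a.1)
          nlinarith
        subst hss
        exact ⟨rfl, off_inj hg hr (by linarith)⟩
    exact h1.mono fun ε h h' => absurd (sub_eq_zero.2 h') h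

lemma Th_pos (q : Cd g o B) (i : IdxC g o) : 0 < Th q i := by
  unfold Th
  positivity

lemma kap_eq [NeZero g] (ε : ℝ) (s : Fin r) (q : Cd g o B) :
    (seed g o r B ε).c s q 0 + (seed g o r B ε).c s q 2 - 2 * (seed g o r B ε).c s q 1 =
      3 / 2 * tau g r ^ 2 + ε * (Th q (.inr (.inr false)) + Th q (.inr (.inr true))) := by
  simp [seed, th, gm]
  ring

lemma kap_pos [NeZero g] (hg : 1 ≤ g) (hr : 1 ≤ r) {ε : ℝ} (hε : 0 < ε) (s : Fin r)
    (q : Cd g o B) : 0 < (seed g o r B ε).c s q 0 + (seed g o r B ε).c s q 2 -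
      2 * (seed g o r B ε).c s q 1 := by
  rw [kap_eq]
  have h1 := tau_pos hg hr
  have h2 := Th_pos q (.inr (.inr false))
  have h3 := Th_pos q (.inr (.inr true))
  positivity

lemma ev_disc [NeZero g] (hg : 1 ≤ g) (hr : 1 ≤ r) :
    ∀ᶠ ε in 𝓝[>] (0 : ℝ), ∀ (s : Fin r) (q : Cd g o B),
      ((seed g o r B ε).c s q 2 - (seed g o r B ε).c s q 0) ^ 2 <
      8 * ((seed g o r B ε).c s q 0 + (seed g o r B ε).c s q 2 - 2 * (seed g o r B ε).c s q 1) *
        (seed g o r B ε).c s q 1 := by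
  rw [eventually_all]; intro s
  rw [eventually_all]; intro q
  have h1 : ∀ᶠ ε in 𝓝[>] (0 : ℝ), ((seed g o r B ε).c s q 2 - (seed g o r B ε).c s q 0) ^ 2 -
      8 * ((seed g o r B ε).c s q 0 + (seed g o r B ε).c s q 2 - 2 * (seed g o r B ε).c s q 1) *
        (seed g o r B ε).c s q 1 < 0 := by
    apply ev_lt
    · simp only [seed, EE]
      fun_prop
    · rw [kap_eq]
      have h5 : (1 : ℝ) ≤ g := by exact_mod_cast hg
      have h6 := tau_pos hg hr
      have h7 := tau_le hg hr
      have h8 : (seed g o r B 0).c s q 2 = (seed g o r B 0).c s q 0 := by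
        simp [seed, th]
      have h9 : 0 < (seed g o r B 0).c s q 1 := by
        simp only [seed, EE, zero_mul, add_zero]
        have h10 : (g : ℝ) ≤ ∑ j : Fin g, (1 + ms r s ^ 2) := by
          rw [Finset.sum_const, Finset.card_univ, Fintype.card_fin, nsmul_eq_mul]
          have := sq_nonneg (ms r s)
          nlinarith
        have h11 := th_le (r := r) hg 1
        have h12 : (g : ℝ) * tau g r ^ 2 ≤ g * (1 / 64) := by
          apply mul_le_mul_of_nonneg_left _ (by linarith)
          nlinarith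
        linarith
      rw [h8, sub_self]
      simp only [zero_mul, add_zero]
      have : 0 < 8 * (3 / 2 * tau g r ^ 2) * (seed g o r B 0).c s q 1 := by positivity
      linarith
  exact h1.mono fun ε h => by linarith

lemma ev_pos [NeZero g] (hg : 1 ≤ g) (hr : 1 ≤ r) (hB : 1 ≤ B) :
    ∀ᶠ ε in 𝓝[>] (0 : ℝ), ∀ (s : Fin r) (q : Cd g o B),
      (seed g o r B ε).c s q 1 <
        (seed g o r B ε).val s (fun _ => (0, ⟨0, hB⟩)) (fun _ => true) s q := by
  rw [eventually_all]; intro s
  rw [eventually_all]; intro q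
  have h1 : ∀ᶠ ε in 𝓝[>] (0 : ℝ), 0 < (seed g o r B ε).val s (fun _ => (0, ⟨0, hB⟩))
      (fun _ => true) s q - (seed g o r B ε).c s q 1 := by
    simp_rw [val_sub]
    apply ev_gt
    · unfold par
      fun_prop
    · simp only [par, zero_mul, add_zero]
      have h6 := tau_pos hg hr
      have h7 : ∑ j : Fin g, (-(ms r s + off g r 0 - ms r s) ^ 2) =
          - (g * (tau g r / 2) ^ 2) := by
        rw [Finset.sum_const, Finset.card_univ, Fintype.card_fin, nsmul_eq_mul]
        simp [off]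
      rw [h7]
      simp only [th]
      simp
      nlinarith
  exact h1.mono fun ε h => by linarith

end Conc

end Pool.Agent.H4.Pol
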