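import Pool.Agent.H4.Pol.Faces

namespace Pool.Agent.H4.Pol

open Set Filter Topology

section transport

variable {X Y : Type*} [NormedAddCommGroup X] [NormedSpace ℝ X] [NormedAddCommGroup Y]
  [NormedSpace ℝ Y] {ι : Type*}

lemma FS_comp (L : X ≃ₗ[ℝ] Y) (V : ι → X) : FS (fun j => L (V j)) = FS V := by
  ext T
  constructor
  · rintro ⟨l, c, hc, hT, hne⟩
    exact ⟨l.comp L.toLinearMap, c, hc, hT, hne⟩
  · rintro ⟨l, c, hc, hT, hne⟩
    refine ⟨l.comp L.symm.toLinearMap, c, fun j => ?_, ?_, hne⟩
    · simpa using hc j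
    · simpa using hT

lemma Exp_comp (L : X ≃ₗ[ℝ] Y) {V : ι → X} (h : Exp V) : Exp (fun j => L (V j)) := by
  intro j
  obtain ⟨l, hl⟩ := h j
  exact ⟨l.comp L.symm.toLinearMap, fun j' hj' => by simpa using hl j' hj'⟩

lemma Full_comp (L : X ≃ₗ[ℝ] Y) {V : ι → X} (h : Full V) : Full (fun j => L (V j)) := by
  intro l c hl
  have h1 : l.comp L.toLinearMap = 0 := h _ c fun j => hl j
  ext y
  have h2 := congrArg (fun f => f (L.symm y)) h1
  simpa using h2

end transport

theorem card_le {d v : ℕ} (hv : 1 ≤ v) {X : Type} [NormedAddCommGroup X] [NormedSpace ℝ X]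
    [FiniteDimensional ℝ X] (hX : Module.finrank ℝ X = d) {ι : Type} [Fintype ι]
    (hι : Fintype.card ι = v) {Γ : Type} [Fintype Γ] (V : Γ → ι → X) (hE : ∀ β, Exp (V β))
    (hF : ∀ β, Full (V β)) (base : Set ι) (m : ℕ) (hm : base.ncard ≤ m)
    (hsep : ∀ β β', β ≠ β' → ∃ T : Set ι, T ⊆ base ∧ ¬ (T ∈ FS (V β) ↔ T ∈ FS (V β'))) :
    Fintype.card Γ ≤ numTypes d v * v ^ m := by
  classical
  have hfr : Module.finrank ℝ X = Module.finrank ℝ (E d) := by
    rw [hX]; simp
  let L : X ≃ₗ[ℝ] E d := LinearEquiv.ofFinrankEq X (E d) hfr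
  let W : Γ → ι → E d := fun β j => L (V β j)
  have hWE : ∀ β, Exp (W β) := fun β => Exp_comp L (hE β)
  have hWF : ∀ β, Full (W β) := fun β => Full_comp L (hF β)
  have hWS : ∀ β, FS (W β) = FS (V β) := fun β => FS_comp L (V β)
  haveI : Nonempty ι := by
    rw [← Fintype.card_pos_iff, hι]; exact hv
  let P : Γ → Polytope d v := fun β =>
    ⟨convexHull ℝ (range (W β)), (hWF β).isPolytope, by
      rw [(hWE β).extremePoints, ← image_univ, ncard_image_of_injective _ (hWE β).injective,
        ncard_univ, Nat.card_eq_fintype_card, hι]⟩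
  let q : Γ → Quotient (combSetoid d v) := fun β => Quotient.mk _ (P β)
  haveI : Fintype (Quotient (combSetoid d v)) := Fintype.ofFinite _
  have hfib : ∀ b ∈ (Finset.univ : Finset (Quotient (combSetoid d v))),
      (Finset.univ.filter fun β => q β = b).card ≤ v ^ m := by
    intro b _
    by_cases hb : ∃ β0, q β0 = b
    · obtain ⟨β0, hβ0⟩ := hb
      have hex : ∀ β, q β = b → ∃ p : ι ≃ ι, ∀ T : Set ι, T ∈ FS (V β) ↔ p '' T ∈ FS (V β0) := by
        intro β hβ
        have h1 : q β = q β0 := by rw [hβ, hβ0]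
        obtain ⟨f⟩ := Quotient.exact h1
        have h2 := exists_equiv_FS (hWE β) (hWE β0) f
        rw [hWS, hWS] at h2
        exact h2
      let p : Γ → ι ≃ ι := fun β => if h : q β = b then (hex β h).choose else Equiv.refl ι
      have hp : ∀ β, q β = b → ∀ T : Set ι, T ∈ FS (V β) ↔ p β '' T ∈ FS (V β0) := by
        intro β hβ
        simp only [p, dif_pos hβ]
        exact (hex β hβ).choose_spec
      have hinj : Set.InjOn (fun β => (fun x : base => p β x.1))
          (Finset.univ.filter fun β => q β = b : Finset Γ) := by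
        intro β hβ β' hβ' h
        simp only [Finset.coe_filter, Finset.mem_univ, true_and, mem_setOf_eq] at hβ hβ'
        by_contra hne
        obtain ⟨T, hT, hT'⟩ := hsep β β' hne
        apply hT'
        have him : p β '' T = p β' '' T := by
          apply image_congr
          intro x hx
          exact congrFun h ⟨x, hT hx⟩
        rw [hp β hβ T, hp β' hβ' T, him]
      have h3 := Finset.card_le_card_of_injOn (t := (Finset.univ : Finset (base → ι)))
        (fun β => (fun x : base => p β x.1)) (fun _ _ => Finset.mem_univ _) hinj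
      refine h3.trans ?_
      rw [Finset.card_univ, Fintype.card_fun, hι]
      apply Nat.pow_le_pow_right hv
      rw [← Nat.card_eq_fintype_card]
      exact hm
    · have : (Finset.univ.filter fun β => q β = b) = ∅ := by
        apply Finset.filter_eq_empty_iff.2
        intro β _ h
        exact hb ⟨β, h⟩
      rw [this]; simp
  have h4 := Finset.card_le_mul_card_image_of_maps_to (f := q)
    (s := (Finset.univ : Finset Γ)) (t := (Finset.univ : Finset (Quotient (combSetoid d v))))
    (fun _ _ => Finset.mem_univ _) (v ^ m) hfib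
  rw [Finset.card_univ, Finset.card_univ] at h4
  unfold numTypes
  rw [Nat.card_eq_fintype_card, mul_comm]
  exact h4

end Pool.Agent.H4.Pol
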