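import Mathlib

/-!
Definitions for the enumeration of combinatorial types of convex polytopes (MP_18b2cf_co).
-/

namespace Pool.Agent.H4.Pol

open Set Filter Topology

/-- `d`-dimensional Euclidean space. -/
abbrev E (d : ℕ) := EuclideanSpace ℝ (Fin d)

/-- A convex `d`-polytope in `ℝ^d`: the convex hull of finitely many points, with nonempty
interior. -/
def IsPolytope {d : ℕ} (P : Set (E d)) : Prop :=
  (∃ S : Set (E d), S.Finite ∧ P = convexHull ℝ S) ∧ (interior P).Nonempty

/-- The faces of a convex set `P`: the empty set and all sets of maximisers on `P` of a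
linear functional (the functional `0` gives `P` itself). They are ordered by inclusion. -/
def Face {d : ℕ} (P : Set (E d)) : Type := {F : Set (E d) // IsExposed ℝ P F}

instance {d : ℕ} (P : Set (E d)) : PartialOrder (Face P) :=
  inferInstanceAs (PartialOrder {F : Set (E d) // IsExposed ℝ P F})

/-- Convex `d`-polytopes with exactly `v` vertices. -/
def Polytope (d v : ℕ) : Type :=
  {P : Set (E d) // IsPolytope P ∧ (P.extremePoints ℝ).ncard = v}

/-- Combinatorial equivalence: isomorphism of face lattices. -/
instance combSetoid (d v : ℕ) : Setoid (Polytope d v) where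
  r P Q := Nonempty (Face P.1 ≃o Face Q.1)
  iseqv :=
    ⟨fun _ => ⟨OrderIso.refl _⟩, fun ⟨f⟩ => ⟨f.symm⟩, fun ⟨f⟩ ⟨g⟩ => ⟨f.trans g⟩⟩

/-- `N_d(v)`: the number of combinatorial types of convex `d`-polytopes with `v` vertices. -/
noncomputable def numTypes (d v : ℕ) : ℕ := Nat.card (Quotient (combSetoid d v))

variable {X : Type*} [NormedAddCommGroup X] [NormedSpace ℝ X] {ι : Type*}

/-- The vertex sets of the nonempty faces of the hull of a family of points. -/
def FS (V : ι → X) : Set (Set ι) :=
  {T | ∃ (l : X →ₗ[ℝ] ℝ) (c : ℝ), (∀ j, l (V j) ≤ c) ∧ T = {j | l (V j) = c} ∧ T.Nonempty}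

/-- Every member of the family is the unique maximiser of some linear functional. -/
def Exp (V : ι → X) : Prop :=
  ∀ j, ∃ l : X →ₗ[ℝ] ℝ, ∀ j', j' ≠ j → l (V j') < l (V j)

/-- No nonzero linear functional is constant on the family. -/
def Full (V : ι → X) : Prop :=
  ∀ (l : X →ₗ[ℝ] ℝ) (c : ℝ), (∀ j, l (V j) = c) → l = 0

end Pool.Agent.H4.Pol
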