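import Pool.Agent.H4.Pol.Assemble

namespace Pool.Agent.H4.Pol

open Set Filter Topology

variable {g o r : ℕ} {J Code : Type} {k F : ℕ} {S : Seed g o r J Code}

lemma CC_cont (S : Seed g o r J Code) (x0 : ℝ) (s : Fin r) (q : Code) :
    ContinuousAt (fun lam => S.CC lam x0 s q) 0 := by
  unfold Seed.CC
  apply ContinuousAt.div
  · fun_prop
  · fun_prop
  · have := sq_nonneg x0
    simp
    positivity

lemma exists_small [Finite J] [Finite Code] (hS : S.Good) : ∃ h lam, Small k F S h lam := by
  have hh : ∃ h : ℝ, (0 < h ∧ (∀ j s a, |S.par j s a| + h < 1)) ∧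
      ∀ j (p p' : Fin r × J), p ≠ p' → 2 * h < |S.par j p.1 p.2 - S.par j p'.1 p'.2| := by
    have h0 : ∀ᶠ h in 𝓝[>] (0 : ℝ), 0 < h := self_mem_nhdsWithin
    have h1 : ∀ᶠ h in 𝓝[>] (0 : ℝ), ∀ j s a, |S.par j s a| + h < 1 := by
      rw [eventually_all]; intro j
      rw [eventually_all]; intro s
      rw [eventually_all]; intro a
      apply ev_lt (by fun_prop)
      simpa using hS.par_lt j s a
    have h2 : ∀ᶠ h in 𝓝[>] (0 : ℝ), ∀ j (p p' : Fin r × J), p ≠ p' →
        2 * h < |S.par j p.1 p.2 - S.par j p'.1 p'.2| := by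
      rw [eventually_all]; intro j
      rw [eventually_all]; intro p
      rw [eventually_all]; intro p'
      by_cases hp : p = p'
      · exact Eventually.of_forall fun _ h => absurd hp h
      · have h3 : 0 < |S.par j p.1 p.2 - S.par j p'.1 p'.2| := by
          rw [abs_pos, sub_ne_zero]
          intro h
          obtain ⟨h4, h5⟩ := hS.par_inj j _ _ _ _ h
          exact hp (Prod.ext h4 h5)
        have h4 : ∀ᶠ h in 𝓝[>] (0 : ℝ), 2 * h < |S.par j p.1 p.2 - S.par j p'.1 p'.2| :=
          ev_lt (by fun_prop) (by simpa using h3)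
        exact h4.mono fun _ h _ => h
    exact ((h0.and h1).and h2).exists
  obtain ⟨h, ⟨h0, h1⟩, h2⟩ := hh
  have hl : ∃ lam : ℝ, (((0 < lam ∧ 8 * lam < 1 / (((k + F : ℕ) : ℝ) + 2)) ∧
      (∀ (i i' : Fin k), i ≠ i' → ∀ s q s' b e (l : Fin 3),
        lam ^ 2 / S.kap s q * S.val s' b e s q <
        S.DD lam (ctr (k + F) i) s q (ctr (k + F) i' + lam * ((l : ℝ) - 1)))) ∧
      (∀ (i : Fin k) s q j (p : Fin r × J) e,
        (S.CC lam (ctr (k + F) i) s q * lam ^ 2 / S.kap s q) *
        dot (av (S.par j p.1 p.2 + sg e * h / 2)) (S.w s q j) < 1)) ∧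
      (∀ (i : Fin k) s q i0 e,
        (S.CC lam (ctr (k + F) i) s q * lam ^ 2 / S.kap s q) * (sg e * S.w0 s q i0) < 1) := by
    have l0 : ∀ᶠ lam in 𝓝[>] (0 : ℝ), 0 < lam := self_mem_nhdsWithin
    have l1 : ∀ᶠ lam in 𝓝[>] (0 : ℝ), 8 * lam < 1 / (((k + F : ℕ) : ℝ) + 2) := by
      apply ev_lt (by fun_prop)
      rw [mul_zero]
      positivity
    have l2 : ∀ᶠ lam in 𝓝[>] (0 : ℝ), ∀ (i i' : Fin k), i ≠ i' → ∀ s q s' b e (l : Fin 3),
        lam ^ 2 / S.kap s q * S.val s' b e s q <
        S.DD lam (ctr (k + F) i) s q (ctr (k + F) i' + lam * ((l : ℝ) - 1)) := by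
      rw [eventually_all]; intro i
      rw [eventually_all]; intro i'
      by_cases hi : i = i'
      · exact Eventually.of_forall fun _ h => absurd hi h
      · refine Eventually.mono (p := fun lam => ∀ s q s' b e (l : Fin 3),
          lam ^ 2 / S.kap s q * S.val s' b e s q <
          S.DD lam (ctr (k + F) i) s q (ctr (k + F) i' + lam * ((l : ℝ) - 1))) ?_
          fun _ h _ => h
        rw [eventually_all]; intro s
        rw [eventually_all]; intro q
        rw [eventually_all]; intro s'
        rw [eventually_all]; intro b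
        rw [eventually_all]; intro e
        rw [eventually_all]; intro l
        have h3 : ∀ᶠ lam in 𝓝[>] (0 : ℝ), lam ^ 2 / S.kap s q * S.val s' b e s q -
            S.DD lam (ctr (k + F) i) s q (ctr (k + F) i' + lam * ((l : ℝ) - 1)) < 0 := by
          apply ev_lt
          · unfold Seed.DD
            fun_prop
          · have h4 : ctr (k + F) i' - ctr (k + F) i ≠ 0 := by
              intro h5
              apply hi
              have hN : (((k + F : ℕ) : ℝ) + 2) ≠ 0 := by positivity
              unfold ctr at h5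
              rw [div_sub_div_same, div_eq_zero_iff] at h5
              have h6 := h5.resolve_right hN
              have h7 : ((i' : ℕ) : ℝ) = ((i : ℕ) : ℝ) := by linarith
              exact (Fin.ext (by exact_mod_cast h7)).symm
            unfold Seed.DD
            have h5 : 0 < (ctr (k + F) i' - ctr (k + F) i) ^ 2 := by positivity
            simp only [zero_mul, add_zero, ne_eq, OfNat.ofNat_ne_zero, not_false_eq_true,
              zero_pow, zero_div]
            linarith
        exact h3.mono fun lam h => by linarith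
    have l3 : ∀ᶠ lam in 𝓝[>] (0 : ℝ), ∀ (i : Fin k) s q j (p : Fin r × J) e,
        (S.CC lam (ctr (k + F) i) s q * lam ^ 2 / S.kap s q) *
        dot (av (S.par j p.1 p.2 + sg e * h / 2)) (S.w s q j) < 1 := by
      rw [eventually_all]; intro i
      rw [eventually_all]; intro s
      rw [eventually_all]; intro q
      rw [eventually_all]; intro j
      rw [eventually_all]; intro p
      rw [eventually_all]; intro e
      have hc := CC_cont S (ctr (k + F) i) s q
      apply ev_lt
      · fun_prop
      · simp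
    have l4 : ∀ᶠ lam in 𝓝[>] (0 : ℝ), ∀ (i : Fin k) s q i0 e,
        (S.CC lam (ctr (k + F) i) s q * lam ^ 2 / S.kap s q) * (sg e * S.w0 s q i0) < 1 := by
      rw [eventually_all]; intro i
      rw [eventually_all]; intro s
      rw [eventually_all]; intro q
      rw [eventually_all]; intro i0
      rw [eventually_all]; intro e
      have hc := CC_cont S (ctr (k + F) i) s q
      apply ev_lt
      · fun_prop
      · simp
    exact ((((l0.and l1).and l2).and l3).and l4).exists
  obtain ⟨lam, ⟨⟨⟨l0, l1⟩, l2⟩, l3⟩, l4⟩ := hl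
  exact ⟨h, lam, h0, h1, h2, l0, l1, l2, l3, l4⟩

theorem assemble [Fintype J] [Fintype Code] [Nonempty J] (hS : S.Good) (hk : 1 ≤ k)
    (hr : 1 ≤ r) :
    Fintype.card Code ^ (k * r) ≤
      numTypes (2 + 2 * g + o)
        ((4 * k + F + (g * (r * Fintype.card J) * 2 + o * 2)) + k * r) *
      ((4 * k + F + (g * (r * Fintype.card J) * 2 + o * 2)) + k * r) ^
        (4 * k + F + (g * (r * Fintype.card J) * 2 + o * 2)) := by
  classical
  obtain ⟨h, lam, hs⟩ := exists_small (k := k) (F := F) hS
  have hcard : Fintype.card (BI g o r J k F ⊕ (Fin k × Fin r)) =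
      (4 * k + F + (g * (r * Fintype.card J) * 2 + o * 2)) + k * r := by
    simp only [BI, QI, Fintype.card_sum, Fintype.card_prod, Fintype.card_fin, Fintype.card_bool]
    ring
  have hbase : (range (Sum.inl : BI g o r J k F → BI g o r J k F ⊕ (Fin k × Fin r))).ncard ≤
      4 * k + F + (g * (r * Fintype.card J) * 2 + o * 2) := by
    rw [← image_univ, ncard_image_of_injective _ Sum.inl_injective, ncard_univ,
      Nat.card_eq_fintype_card]
    simp only [BI, QI, Fintype.card_sum, Fintype.card_prod, Fintype.card_fin, Fintype.card_bool]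
    apply le_of_eq
    ring
  have h1 := card_le (d := 2 + 2 * g + o)
    (v := (4 * k + F + (g * (r * Fintype.card J) * 2 + o * 2)) + k * r) (by omega)
    (finrank_XX g o) hcard (fun β : Fin k × Fin r → Code => VV k F S h lam β)
    (fun β => VV_exp hS hs β) (fun β => VV_full hS hs hk hr β) _ _ hbase
    (fun β β' hne => VV_sep hS hs β β' hne)
  rw [Fintype.card_fun, Fintype.card_prod, Fintype.card_fin, Fintype.card_fin] at h1
  exact h1

end Pool.Agent.H4.Pol
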