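import Pool.Agent.H4.Pol.Defs

namespace Pool.Agent.H4.Pol

open Set Filter Topology

section hull

variable {X : Type*} [NormedAddCommGroup X] [NormedSpace ℝ X] {ι : Type*} [Fintype ι]

lemma exists_weights (V : ι → X) {x : X} (hx : x ∈ convexHull ℝ (range V)) :
    ∃ w : ι → ℝ, (∀ j, 0 ≤ w j) ∧ ∑ j, w j = 1 ∧ x = ∑ j, w j • V j := by
  classical
  have hconv : Convex ℝ {y : X | ∃ w : ι → ℝ, (∀ j, 0 ≤ w j) ∧ ∑ j, w j = 1 ∧
      y = ∑ j, w j • V j} := by
    rintro y ⟨w, hw0, hw1, rfl⟩ z ⟨u, hu0, hu1, rfl⟩ a b ha hb hab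
    refine ⟨fun j => a * w j + b * u j, fun j => ?_, ?_, ?_⟩
    · exact add_nonneg (mul_nonneg ha (hw0 j)) (mul_nonneg hb (hu0 j))
    · rw [Finset.sum_add_distrib, ← Finset.mul_sum, ← Finset.mul_sum, hw1, hu1]; simpa using hab
    · rw [Finset.smul_sum, Finset.smul_sum, ← Finset.sum_add_distrib]
      refine Finset.sum_congr rfl fun j _ => ?_
      rw [add_smul, mul_smul, mul_smul]
  refine convexHull_min ?_ hconv hx
  rintro _ ⟨j, rfl⟩
  refine ⟨Pi.single j 1, fun i => ?_, ?_, ?_⟩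
  · by_cases h : i = j
    · subst h; simp
    · simp [Pi.single_eq_of_ne h]
  · simp
  · rw [Finset.sum_eq_single j]
    · simp
    · intro b _ hb; simp [Pi.single_eq_of_ne hb]
    · simp

lemma le_of_mem_hull {V : ι → X} {l : X →ₗ[ℝ] ℝ} {c : ℝ} (hc : ∀ j, l (V j) ≤ c) {x : X}
    (hx : x ∈ convexHull ℝ (range V)) : l x ≤ c := by
  obtain ⟨w, hw0, hw1, rfl⟩ := exists_weights V hx
  rw [map_sum]
  calc ∑ j, l (w j • V j) = ∑ j, w j * l (V j) := by simp
    _ ≤ ∑ j, w j * c := Finset.sum_le_sum fun j _ => mul_le_mul_of_nonneg_left (hc j) (hw0 j)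
    _ = c := by rw [← Finset.sum_mul, hw1, one_mul]

/-- the vertices in a face determine it -/
lemma exposed_subset {V : ι → X} {B B' : Set X}
    (hB : IsExposed ℝ (convexHull ℝ (range V)) B)
    (hB' : IsExposed ℝ (convexHull ℝ (range V)) B')
    (h : ∀ j, V j ∈ B → V j ∈ B') : B ⊆ B' := by
  classical
  intro x hx
  have hVP : ∀ j, V j ∈ convexHull ℝ (range V) := fun j => subset_convexHull ℝ _ ⟨j, rfl⟩
  obtain ⟨l, hl⟩ := hB ⟨x, hx⟩
  have hx' := hx
  rw [hl] at hx'
  obtain ⟨hxP, hmax⟩ := hx'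
  obtain ⟨w, hw0, hw1, hxw⟩ := exists_weights V hxP
  have hsum : ∑ j, w j * (l x - l (V j)) = 0 := by
    have : l x = ∑ j, w j * l (V j) := by rw [hxw]; simp
    simp only [mul_sub]
    rw [Finset.sum_sub_distrib, ← Finset.sum_mul, hw1, one_mul, ← this, sub_self]
  have hz : ∀ j, w j * (l x - l (V j)) = 0 := by
    intro j
    exact (Finset.sum_eq_zero_iff_of_nonneg (fun j _ =>
      mul_nonneg (hw0 j) (sub_nonneg.2 (hmax _ (hVP j))))).1 hsum j (Finset.mem_univ j)
  have hmem : ∀ j, w j ≠ 0 → V j ∈ B' := by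
    intro j hj
    apply h j
    rw [hl]
    refine ⟨hVP j, fun y hy => ?_⟩
    have h1 : l x - l (V j) = 0 := by
      rcases mul_eq_zero.1 (hz j) with h0 | h0
      · exact absurd h0 hj
      · exact h0
    have := hmax y hy
    linarith
  obtain ⟨j0, hj0⟩ : ∃ j, w j ≠ 0 := by
    by_contra hcon
    push Not at hcon
    simp [hcon] at hw1
  obtain ⟨l', hl'⟩ := hB' ⟨_, hmem j0 hj0⟩
  have hval : ∀ j, w j ≠ 0 → l' (V j) = l' (V j0) := by
    intro j hj
    have h1 := hmem j hj
    have h2 := hmem j0 hj0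
    rw [hl'] at h1 h2
    exact le_antisymm (h2.2 _ (hVP j)) (h1.2 _ (hVP j0))
  have hx0 : l' x = l' (V j0) := by
    have h1 : l' x = ∑ j, w j * l' (V j) := by
      conv_lhs => rw [hxw]
      simp
    rw [h1]
    calc ∑ j, w j * l' (V j) = ∑ j, w j * l' (V j0) := by
          refine Finset.sum_congr rfl fun j _ => ?_
          by_cases hj : w j = 0
          · simp [hj]
          · rw [hval j hj]
      _ = l' (V j0) := by rw [← Finset.sum_mul, hw1, one_mul]
  rw [hl']
  refine ⟨hxP, fun y hy => ?_⟩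
  have h2 := hmem j0 hj0
  rw [hl'] at h2
  rw [hx0]
  exact h2.2 y hy

end hull

section family

variable {d : ℕ} {ι : Type*} [Fintype ι]

/-- the family of vertex sets of all faces -/
def GS (V : ι → E d) : Set (Set ι) := insert ∅ (FS V)

lemma exposed_of_functional (V : ι → E d) (l : E d →ₗ[ℝ] ℝ) :
    IsExposed ℝ (convexHull ℝ (range V))
      {x ∈ convexHull ℝ (range V) | ∀ y ∈ convexHull ℝ (range V), l y ≤ l x} :=
  fun _ => ⟨l.toContinuousLinearMap, rfl⟩

lemma mem_GS_of_exposed (V : ι → E d) {B : Set (E d)}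
    (hB : IsExposed ℝ (convexHull ℝ (range V)) B) : {j | V j ∈ B} ∈ GS V := by
  have hVP : ∀ j, V j ∈ convexHull ℝ (range V) := fun j => subset_convexHull ℝ _ ⟨j, rfl⟩
  by_cases hne : {j | V j ∈ B} = ∅
  · rw [hne]; exact mem_insert _ _
  · refine mem_insert_of_mem _ ?_
    obtain ⟨j0, hj0⟩ := nonempty_iff_ne_empty.2 hne
    have hj0' : V j0 ∈ B := hj0
    obtain ⟨l, hl⟩ := hB ⟨_, hj0'⟩
    rw [hl] at hj0'
    refine ⟨l.toLinearMap, l (V j0), fun j => hj0'.2 _ (hVP j), ?_, ⟨j0, hj0⟩⟩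
    ext j
    rw [mem_setOf_eq, mem_setOf_eq, hl]
    constructor
    · rintro ⟨-, h⟩
      exact le_antisymm (hj0'.2 _ (hVP j)) (h _ (hVP j0))
    · intro h
      refine ⟨hVP j, fun y hy => ?_⟩
      have h1 : l (V j) = l (V j0) := h
      rw [h1]
      exact hj0'.2 y hy

lemma exists_exposed_of_mem_GS (V : ι → E d) {T : Set ι} (hT : T ∈ GS V) :
    ∃ B, IsExposed ℝ (convexHull ℝ (range V)) B ∧ {j | V j ∈ B} = T := by
  have hVP : ∀ j, V j ∈ convexHull ℝ (range V) := fun j => subset_convexHull ℝ _ ⟨j, rfl⟩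
  rcases hT with rfl | ⟨l, c, hc, rfl, ⟨j0, hj0⟩⟩
  · refine ⟨∅, fun h => absurd h (by simp), ?_⟩
    ext j; simp
  · refine ⟨_, exposed_of_functional V l, ?_⟩
    ext j
    constructor
    · rintro ⟨-, h⟩
      refine le_antisymm (hc j) ?_
      have h1 := h _ (hVP j0)
      have h2 : l (V j0) = c := hj0
      rw [h2] at h1
      exact h1
    · intro h
      refine ⟨hVP j, fun y hy => ?_⟩
      have h1 : l (V j) = c := h
      rw [h1]
      exact le_of_mem_hull hc hy

/-- the face lattice is the poset of vertex sets of faces -/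
noncomputable def faceIso (V : ι → E d) :
    Face (convexHull ℝ (range V)) ≃o {T : Set ι // T ∈ GS V} :=
  RelIso.ofSurjective
    (OrderEmbedding.ofMapLEIff
      (fun B : Face (convexHull ℝ (range V)) =>
        (⟨{j | V j ∈ B.1}, mem_GS_of_exposed V B.2⟩ : {T : Set ι // T ∈ GS V}))
      (fun B B' => ⟨fun h => exposed_subset B.2 B'.2 (fun j hj => h hj),
        fun h j hj => h hj⟩))
    (fun T => by
      obtain ⟨B, hB, hT⟩ := exists_exposed_of_mem_GS V T.2
      exact ⟨⟨B, hB⟩, Subtype.ext hT⟩)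

end family

section comb

variable {ι κ : Type*}

lemma map_empty {G : Set (Set ι)} {H : Set (Set κ)} (hG0 : ∅ ∈ G) (hH0 : ∅ ∈ H)
    (f : {T : Set ι // T ∈ G} ≃o {T : Set κ // T ∈ H}) : f ⟨∅, hG0⟩ = ⟨∅, hH0⟩ := by
  apply le_antisymm
  · have h : (⟨∅, hG0⟩ : {T : Set ι // T ∈ G}) ≤ f.symm ⟨∅, hH0⟩ := empty_subset _
    have := f.monotone h
    rwa [f.apply_symm_apply] at this
  · exact empty_subset _

lemma exists_point {G : Set (Set ι)} {H : Set (Set κ)} (hG0 : ∅ ∈ G) (hH0 : ∅ ∈ H)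
    (hG : ∀ j : ι, ({j} : Set ι) ∈ G) (hH : ∀ j : κ, ({j} : Set κ) ∈ H)
    (f : {T : Set ι // T ∈ G} ≃o {T : Set κ // T ∈ H}) (j : ι) :
    ∃ k : κ, f ⟨{j}, hG j⟩ = ⟨{k}, hH k⟩ := by
  have hne : (f ⟨{j}, hG j⟩).1 ≠ ∅ := by
    intro h
    have h1 : f ⟨{j}, hG j⟩ = f ⟨∅, hG0⟩ := by
      rw [map_empty hG0 hH0 f]; exact Subtype.ext h
    have h2 := congrArg Subtype.val (f.injective h1)
    exact absurd h2 (singleton_ne_empty j)
  obtain ⟨k, hk⟩ := nonempty_iff_ne_empty.2 hne
  refine ⟨k, ?_⟩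
  have h1 : (⟨{k}, hH k⟩ : {T : Set κ // T ∈ H}) ≤ f ⟨{j}, hG j⟩ := by
    intro x hx
    rw [mem_singleton_iff.1 hx]; exact hk
  have h2 : f.symm ⟨{k}, hH k⟩ ≤ ⟨{j}, hG j⟩ := by
    have := f.symm.monotone h1
    rwa [f.symm_apply_apply] at this
  have h3 : (f.symm ⟨{k}, hH k⟩).1 ⊆ {j} := h2
  rcases subset_singleton_iff_eq.1 h3 with h | h
  · exfalso
    have h4 : f.symm ⟨{k}, hH k⟩ = f.symm ⟨∅, hH0⟩ := by
      rw [map_empty hH0 hG0 f.symm]; exact Subtype.ext h
    have h5 := congrArg Subtype.val (f.symm.injective h4)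
    exact absurd h5 (singleton_ne_empty k)
  · have h4 : f.symm ⟨{k}, hH k⟩ = ⟨{j}, hG j⟩ := Subtype.ext h
    rw [← h4, f.apply_symm_apply]

/-- An isomorphism between set systems containing the empty set and all singletons is induced by
a bijection of the ground sets. -/
lemma exists_equiv {G : Set (Set ι)} {H : Set (Set κ)} (hG0 : ∅ ∈ G) (hH0 : ∅ ∈ H)
    (hG : ∀ j : ι, ({j} : Set ι) ∈ G) (hH : ∀ j : κ, ({j} : Set κ) ∈ H)
    (f : {T : Set ι // T ∈ G} ≃o {T : Set κ // T ∈ H}) :
    ∃ p : ι ≃ κ, ∀ (T : {T : Set ι // T ∈ G}) (j : ι), p j ∈ (f T).1 ↔ j ∈ T.1 := by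
  choose p hp using exists_point hG0 hH0 hG hH f
  choose q hq using exists_point hH0 hG0 hH hG f.symm
  refine ⟨⟨p, q, fun j => ?_, fun k => ?_⟩, fun T j => ?_⟩
  · have h1 := hq (p j)
    rw [← hp j, f.symm_apply_apply] at h1
    have h2 := congrArg Subtype.val h1
    exact (singleton_injective h2).symm
  · have h1 := hp (q k)
    rw [← hq k, f.apply_symm_apply] at h1
    have h2 := congrArg Subtype.val h1
    exact (singleton_injective h2).symm
  · have h1 : p j ∈ (f T).1 ↔ (⟨{p j}, hH (p j)⟩ : {T : Set κ // T ∈ H}) ≤ f T := by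
      constructor
      · intro h x hx
        rw [mem_singleton_iff.1 hx]; exact h
      · intro h; exact h (mem_singleton _)
    have h2 : j ∈ T.1 ↔ (⟨{j}, hG j⟩ : {T : Set ι // T ∈ G}) ≤ T := by
      constructor
      · intro h x hx
        rw [mem_singleton_iff.1 hx]; exact h
      · intro h; exact h (mem_singleton _)
    show p j ∈ (f T).1 ↔ j ∈ T.1
    rw [h1, h2, ← hp j, f.le_iff_le]

/-- consequence: membership is transported by the bijection -/
lemma exists_equiv' {G : Set (Set ι)} {H : Set (Set κ)} (hG0 : ∅ ∈ G) (hH0 : ∅ ∈ H)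
    (hG : ∀ j : ι, ({j} : Set ι) ∈ G) (hH : ∀ j : κ, ({j} : Set κ) ∈ H)
    (f : {T : Set ι // T ∈ G} ≃o {T : Set κ // T ∈ H}) :
    ∃ p : ι ≃ κ, ∀ T : Set ι, T ∈ G ↔ p '' T ∈ H := by
  obtain ⟨p, hp⟩ := exists_equiv hG0 hH0 hG hH f
  refine ⟨p, fun T => ⟨fun hT => ?_, fun hT => ?_⟩⟩
  · have : p '' T = (f ⟨T, hT⟩).1 := by
      ext k
      obtain ⟨j, rfl⟩ := p.surjective k
      rw [hp ⟨T, hT⟩ j]
      simp
    rw [this]; exact (f ⟨T, hT⟩).2
  · have : T = (f.symm ⟨p '' T, hT⟩).1 := by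
      ext j
      rw [← hp (f.symm ⟨p '' T, hT⟩) j, f.apply_symm_apply]
      simp
    rw [this]; exact (f.symm ⟨p '' T, hT⟩).2

end comb

section poly

variable {d : ℕ} {ι : Type*} [Fintype ι]

lemma Exp.injective {V : ι → E d} (h : Exp V) : Function.Injective V := by
  intro i j hij
  by_contra hne
  obtain ⟨l, hl⟩ := h i
  have := hl j (Ne.symm hne)
  rw [hij] at this
  exact lt_irrefl _ this

lemma Exp.singleton_mem {V : ι → E d} (h : Exp V) (j : ι) : ({j} : Set ι) ∈ FS V := by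
  obtain ⟨l, hl⟩ := h j
  refine ⟨l, l (V j), fun i => ?_, ?_, singleton_nonempty j⟩
  · by_cases hi : i = j
    · rw [hi]
    · exact (hl i hi).le
  · ext i
    simp only [mem_singleton_iff, mem_setOf_eq]
    constructor
    · rintro rfl; rfl
    · intro hi
      by_contra hne
      exact absurd hi (hl i hne).ne

lemma Exp.extremePoints {V : ι → E d} (h : Exp V) :
    (convexHull ℝ (range V)).extremePoints ℝ = range V := by
  classical
  apply subset_antisymm
  · exact extremePoints_convexHull_subset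
  · rintro _ ⟨j, rfl⟩
    apply exposedPoints_subset_extremePoints
    obtain ⟨l, hl⟩ := h j
    have hle : ∀ i, l (V i) ≤ l (V j) := by
      intro i
      by_cases hi : i = j
      · rw [hi]
      · exact (hl i hi).le
    refine ⟨subset_convexHull ℝ _ ⟨j, rfl⟩, l.toContinuousLinearMap, fun y hy => ⟨?_, ?_⟩⟩
    · exact le_of_mem_hull hle hy
    · intro hy'
      have hy'' : l (V j) ≤ l y := hy'
      obtain ⟨w, hw0, hw1, rfl⟩ := exists_weights V hy
      have h1 : l (∑ i, w i • V i) = ∑ i, w i * l (V i) := by simp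
      rw [h1] at hy''
      have h2 : ∑ i, w i * (l (V j) - l (V i)) = 0 := by
        apply le_antisymm
        · simp only [mul_sub]
          rw [Finset.sum_sub_distrib, ← Finset.sum_mul, hw1, one_mul]
          linarith
        · exact Finset.sum_nonneg fun i _ => mul_nonneg (hw0 i) (sub_nonneg.2 (hle i))
      have h3 : ∀ i, i ≠ j → w i = 0 := by
        intro i hi
        have h4 := (Finset.sum_eq_zero_iff_of_nonneg (fun i _ =>
          mul_nonneg (hw0 i) (sub_nonneg.2 (hle i)))).1 h2 i (Finset.mem_univ i)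
        rcases mul_eq_zero.1 h4 with h5 | h5
        · exact h5
        · exact absurd h5 (sub_pos.2 (hl i hi)).ne'
      have h4 : w j = 1 := by
        rw [Finset.sum_eq_single j (fun b _ hb => h3 b hb) (by simp)] at hw1
        exact hw1
      rw [Finset.sum_eq_single j (fun b _ hb => by rw [h3 b hb, zero_smul]) (by simp), h4,
        one_smul]

lemma Full.isPolytope [Nonempty ι] {V : ι → E d} (h : Full V) :
    IsPolytope (convexHull ℝ (range V)) := by
  refine ⟨⟨range V, finite_range V, rfl⟩, ?_⟩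
  rw [interior_convexHull_nonempty_iff_affineSpan_eq_top]
  by_contra hne
  obtain ⟨j0⟩ := (inferInstance : Nonempty ι)
  have hdir : (affineSpan ℝ (range V)).direction ≠ ⊤ := by
    intro h1
    apply hne
    have hn : (affineSpan ℝ (range V) : Set (E d)).Nonempty :=
      ⟨V j0, subset_affineSpan ℝ _ ⟨j0, rfl⟩⟩
    exact (AffineSubspace.direction_eq_top_iff_of_nonempty hn).1 h1
  obtain ⟨f, hf0, hf⟩ := Submodule.exists_le_ker_of_lt_top _ (lt_top_iff_ne_top.2 hdir)
  apply hf0
  refine h f (f (V j0)) fun j => ?_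
  have h1 : V j -ᵥ V j0 ∈ (affineSpan ℝ (range V)).direction :=
    AffineSubspace.vsub_mem_direction (subset_affineSpan ℝ _ ⟨j, rfl⟩)
      (subset_affineSpan ℝ _ ⟨j0, rfl⟩)
  have h2 := hf h1
  rw [LinearMap.mem_ker, vsub_eq_sub, map_sub, sub_eq_zero] at h2
  exact h2

/-- Combinatorially equivalent hulls of exposed families have the same face families up to a
bijection of the index sets. -/
lemma exists_equiv_FS {κ : Type*} [Fintype κ] {V : ι → E d} {W : κ → E d} (hV : Exp V)
    (hW : Exp W) (f : Face (convexHull ℝ (range V)) ≃o Face (convexHull ℝ (range W))) :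
    ∃ p : ι ≃ κ, ∀ T : Set ι, T ∈ FS V ↔ p '' T ∈ FS W := by
  have g : {T : Set ι // T ∈ GS V} ≃o {T : Set κ // T ∈ GS W} :=
    ((faceIso V).symm.trans f).trans (faceIso W)
  obtain ⟨p, hp⟩ := exists_equiv' (mem_insert _ _) (mem_insert _ _)
    (fun j => mem_insert_of_mem _ (hV.singleton_mem j))
    (fun j => mem_insert_of_mem _ (hW.singleton_mem j)) g
  refine ⟨p, fun T => ?_⟩
  constructor
  · intro hT
    have h1 : T.Nonempty := by obtain ⟨l, c, -, -, h⟩ := hT; exact h
    have h2 := (hp T).1 (mem_insert_of_mem _ hT)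
    rcases h2 with h | h
    · exact absurd h (h1.image p).ne_empty
    · exact h
  · intro hT
    have h1 : (p '' T).Nonempty := by obtain ⟨l, c, -, -, h⟩ := hT; exact h
    have h2 := (hp T).2 (mem_insert_of_mem _ hT)
    rcases h2 with h | h
    · rw [h] at h1; simp at h1
    · exact h

/-- Equality of the families of vertex sets gives combinatorial equivalence. -/
lemma nonempty_iso_of_GS_eq {V W : ι → E d} (h : GS V = GS W) :
    Nonempty (Face (convexHull ℝ (range V)) ≃o Face (convexHull ℝ (range W))) := by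
  have e : {T : Set ι // T ∈ GS V} ≃o {T : Set ι // T ∈ GS W} := by
    rw [h]
  exact ⟨((faceIso V).trans e).trans (faceIso W).symm⟩

end poly

section finite

variable {d v : ℕ}

lemma exists_family (P : Polytope d v) :
    ∃ V : Fin v → E d, P.1 = convexHull ℝ (range V) := by
  obtain ⟨P, ⟨⟨S, hS, hPS⟩, hint⟩, hcard⟩ := P
  have hfin : (P.extremePoints ℝ).Finite := by
    apply hS.subset
    rw [hPS]
    exact extremePoints_convexHull_subset
  have hcomp : IsCompact P := by
    rw [hPS]; exact hS.isCompact_convexHull ℝ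
  have hconv : Convex ℝ P := by rw [hPS]; exact convex_convexHull ℝ S
  have hP : P = convexHull ℝ (P.extremePoints ℝ) := by
    have h1 := closure_convexHull_extremePoints hcomp hconv
    rw [(hfin.isClosed_convexHull ℝ).closure_eq] at h1
    exact h1.symm
  have hcard' : Nat.card (P.extremePoints ℝ) = v := hcard
  haveI : Finite (P.extremePoints ℝ) := hfin
  have e : Fin v ≃ P.extremePoints ℝ := (Finite.equivFinOfCardEq hcard').symm
  refine ⟨fun i => (e i).1, ?_⟩
  have : range (fun i => (e i).1) = P.extremePoints ℝ := by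
    ext x
    constructor
    · rintro ⟨i, rfl⟩; exact (e i).2
    · intro hx
      exact ⟨e.symm ⟨x, hx⟩, by simp⟩
  rw [this]
  exact hP

instance finite_types : Finite (Quotient (combSetoid d v)) := by
  classical
  choose V hV using fun P : Polytope d v => exists_family P
  let code : Quotient (combSetoid d v) → Set (Set (Fin v)) := fun q => GS (V q.out)
  refine Finite.of_injective code fun q q' h => ?_
  have h1 : GS (V q.out) = GS (V q'.out) := h
  have h2 := nonempty_iso_of_GS_eq h1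
  rw [← hV, ← hV] at h2
  rw [← q.out_eq, ← q'.out_eq]
  exact Quotient.sound h2

end finite

end Pool.Agent.H4.Pol
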