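import Pool.Agent.H4.Pol.Concrete

namespace Pool.Agent.H4.Pol

open Set Filter Topology

namespace Conc

variable {g o r B : ℕ}

/-- cluster indices of the group belonging to a threshold -/
def cl [NeZero g] : IdxC g o → Fin g → Fin 3
  | .inl (j0, true) => fun j => if j = j0 then 1 else 0
  | .inl (j0, false) => fun j => if j = j0 then 2 else 0
  | .inr (.inl _) => fun j => if j = 0 then 1 else 0
  | .inr (.inr _) => fun _ => 0

def eo : IdxC g o → Fin o → Bool
  | .inl _ => fun _ => true
  | .inr (.inl i0) => fun i => decide (i ≠ i0)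
  | .inr (.inr _) => fun _ => true

def lo : IdxC g o → Fin 3
  | .inl _ => 1
  | .inr (.inl _) => 1
  | .inr (.inr false) => 0
  | .inr (.inr true) => 2

lemma sum_upd (j0 : Fin g) (a b : Fin g → ℝ) :
    ∑ j, (if j = j0 then a j else b j) = ∑ j, b j + (a j0 - b j0) := by
  have h : ∀ j, (if j = j0 then a j else b j) = b j + (if j = j0 then a j - b j else 0) := by
    intro j; split_ifs <;> ring
  rw [Finset.sum_congr rfl fun j _ => h j, Finset.sum_add_distrib,
    Finset.sum_ite_eq' Finset.univ j0]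
  simp

/-- the squares of the offsets sum to the threshold level -/
lemma sum_off_sq [NeZero g] (i : IdxC g o) :
    ∑ j, (off g r (cl i j)) ^ 2 = th g r (lo i) := by
  have h0 : ∀ (j0 : Fin g) (κ : Fin 3), (∀ j : Fin g, off g r (if j = j0 then κ else 0) ^ 2 =
      if j = j0 then off g r κ ^ 2 else (tau g r / 2) ^ 2) := by
    intro j0 κ j
    split_ifs <;> simp [off]
  rcases i with ⟨j0, e⟩ | i0 | e
  · cases e
    · simp only [cl, lo]
      rw [Finset.sum_congr rfl fun j _ => h0 j0 2 j, sum_upd j0 (fun _ => off g r 2 ^ 2)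
        (fun _ => (tau g r / 2) ^ 2)]
      simp [off, th]
      ring
    · simp only [cl, lo]
      rw [Finset.sum_congr rfl fun j _ => h0 j0 1 j, sum_upd j0 (fun _ => off g r 1 ^ 2)
        (fun _ => (tau g r / 2) ^ 2)]
      simp [off, th]
      ring
  · simp only [cl, lo]
    rw [Finset.sum_congr rfl fun j _ => h0 0 1 j, sum_upd 0 (fun _ => off g r 1 ^ 2)
        (fun _ => (tau g r / 2) ^ 2)]
    simp [off, th]
    ring
  · cases e
    · simp [cl, lo, off, th]
    · simp [cl, lo, off, th]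

/-- the linear part of the value at the group of a threshold -/
lemma lin_part [NeZero g] (hg : 1 ≤ g) (hr : 1 ≤ r) (q : Cd g o B) (i : IdxC g o) :
    ∑ j, (xx r q j * off g r (cl i j) + yy r q j * off g r (cl i j) ^ 2) +
      ∑ i', sg (eo i i') * zz q i' - gm r q (lo i) = - Th q i := by
  have hτ := (tau_pos (g := g) (r := r) hg hr).ne'
  have h0 : ∀ (j0 : Fin g) (κ : Fin 3) (j : Fin g),
      xx r q j * off g r (if j = j0 then κ else 0) +
        yy r q j * off g r (if j = j0 then κ else 0) ^ 2 =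
      if j = j0 then xx r q j * off g r κ + yy r q j * off g r κ ^ 2
        else xx r q j * (tau g r / 2) + yy r q j * (tau g r / 2) ^ 2 := by
    intro j0 κ j
    split_ifs <;> simp [off]
  rcases i with ⟨j0, e⟩ | i0 | e
  · cases e
    · simp only [cl, lo, eo]
      rw [Finset.sum_congr rfl fun j _ => h0 j0 2 j, sum_upd j0
        (fun j => xx r q j * off g r 2 + yy r q j * off g r 2 ^ 2)
        (fun j => xx r q j * (tau g r / 2) + yy r q j * (tau g r / 2) ^ 2)]
      simp only [gm, Vc, sg, off]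
      simp
      unfold yy xx
      field_simp
      ring
    · simp only [cl, lo, eo]
      rw [Finset.sum_congr rfl fun j _ => h0 j0 1 j, sum_upd j0
        (fun j => xx r q j * off g r 1 + yy r q j * off g r 1 ^ 2)
        (fun j => xx r q j * (tau g r / 2) + yy r q j * (tau g r / 2) ^ 2)]
      simp only [gm, Vc, sg, off]
      simp
      unfold yy xx
      field_simp
      ring
  · simp only [cl, lo, eo]
    rw [Finset.sum_congr rfl fun j _ => h0 0 1 j, sum_upd 0
        (fun j => xx r q j * off g r 1 + yy r q j * off g r 1 ^ 2)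
        (fun j => xx r q j * (tau g r / 2) + yy r q j * (tau g r / 2) ^ 2)]
    have h1 : ∀ i', sg (decide (i' ≠ i0)) * zz q i' = if i' = i0 then - zz q i' else zz q i' := by
      intro i'
      by_cases h : i' = i0 <;> simp [sg, h]
    rw [Finset.sum_congr rfl fun i' _ => h1 i', sum_upd i0 (fun i => - zz q i) (fun i => zz q i)]
    simp only [gm, Vc, off]
    simp
    unfold yy xx zz
    field_simp
    ring_nf
  · cases e
    · simp only [cl, lo, eo]
      simp only [gm, Vc, sg, off]
      simp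
    · simp only [cl, lo, eo]
      simp only [gm, Vc, sg, off]
      simp

/-- digits of an element of a group -/
noncomputable def dg (n : Fin (B ^ g)) : Fin g → Fin B := finFunctionFinEquiv.symm n

lemma dg_sum (n : Fin (B ^ g)) : ∑ j : Fin g, ((dg n j : ℕ) : ℝ) * (B : ℝ) ^ (j : ℕ) = n := by
  have h := finFunctionFinEquiv_apply (dg n)
  unfold dg at h
  rw [Equiv.apply_symm_apply] at h
  unfold dg
  rw [h]
  push_cast
  rfl

lemma ev_group [NeZero g] (hg : 1 ≤ g) (hr : 1 ≤ r) :
    ∀ᶠ ε in 𝓝[>] (0 : ℝ), ∀ (s : Fin r) (q : Cd g o B) (i : IdxC g o) (n : Fin (B ^ g)),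
      0 < ((n : ℝ) - Th q i) * ((seed g o r B ε).val s (fun j => (cl i j, dg n j)) (eo i) s q -
        (seed g o r B ε).c s q (lo i)) := by
  have hpos : ∀ᶠ ε in 𝓝[>] (0 : ℝ), 0 < ε := self_mem_nhdsWithin
  rw [eventually_all]; intro s
  rw [eventually_all]; intro q
  rw [eventually_all]; intro i
  rw [eventually_all]; intro n
  -- abbreviations
  let off' : Fin g → ℝ := fun j => off g r (cl i j)
  let a : Fin g → ℝ := fun j => -(((dg n j : ℕ) : ℝ) * (B : ℝ) ^ (j : ℕ)) / (2 * off' j)
  let G : ℝ → ℝ := fun ε => ∑ j, (-(2 * off' j * a j) - ε * a j ^ 2 +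
    xx r q j * (off' j + ε * a j) + yy r q j * (off' j + ε * a j) ^ 2) +
    (∑ i', sg (eo i i') * zz q i' - gm r q (lo i))
  have hoff : ∀ j, off' j ≠ 0 := fun j => off_ne hg hr _
  have hval : ∀ ε : ℝ, (seed g o r B ε).val s (fun j => (cl i j, dg n j)) (eo i) s q -
        (seed g o r B ε).c s q (lo i) = ε * G ε := by
    intro ε
    rw [val_sub]
    have h1 : ∀ j, par g r B ε j s (cl i j, dg n j) - ms r s = off' j + ε * a j := by
      intro j
      simp only [par, off', a]
      ring
    have h2 : ∑ j, (-(off' j + ε * a j) ^ 2 + ε * (xx r q j * (off' j + ε * a j) +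
        yy r q j * (off' j + ε * a j) ^ 2)) = ∑ j, ε * (-(2 * off' j * a j) - ε * a j ^ 2 +
          xx r q j * (off' j + ε * a j) + yy r q j * (off' j + ε * a j) ^ 2) -
          ∑ j, off g r (cl i j) ^ 2 := by
      rw [← Finset.sum_sub_distrib]
      refine Finset.sum_congr rfl fun j _ => ?_
      simp only [off']
      ring
    rw [← sum_off_sq (r := r) i]
    simp only [G, h1]
    rw [mul_add, Finset.mul_sum, h2]
    ring
  have hG0 : G 0 = (n : ℝ) - Th q i := by
    have h1 := lin_part (r := r) hg hr q i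
    have h2 : ∀ j, (-(2 * off' j * a j) - 0 * a j ^ 2 +
      xx r q j * (off' j + 0 * a j) + yy r q j * (off' j + 0 * a j) ^ 2) =
        ((dg n j : ℕ) : ℝ) * (B : ℝ) ^ (j : ℕ) +
        (xx r q j * off g r (cl i j) + yy r q j * off g r (cl i j) ^ 2) := by
      intro j
      have h3 : 2 * off' j * a j = -(((dg n j : ℕ) : ℝ) * (B : ℝ) ^ (j : ℕ)) := by
        simp only [a]
        rw [mul_div_cancel₀]
        exact mul_ne_zero two_ne_zero (hoff j)
      rw [h3]
      simp only [off']
      ring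
    simp only [G]
    rw [Finset.sum_congr rfl fun j _ => h2 j, Finset.sum_add_distrib, dg_sum]
    linarith
  have hne : (n : ℝ) - Th q i ≠ 0 := by
    unfold Th
    intro h
    have h1 : (2 * (n : ℕ) : ℝ) = 2 * ((q i : ℕ) : ℝ) + 1 := by linarith
    have h2 : 2 * (n : ℕ) = 2 * (q i : ℕ) + 1 := by exact_mod_cast h1
    omega
  have h1 : ∀ᶠ ε in 𝓝[>] (0 : ℝ), 0 < ((n : ℝ) - Th q i) * G ε := by
    apply ev_gt
    · simp only [G]
      fun_prop
    · rw [hG0]
      exact mul_self_pos.2 hne
  filter_upwards [h1, hpos] with ε h hε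
  rw [hval]
  have := mul_pos hε h
  nlinarith

lemma exists_good [NeZero g] (o : ℕ) (hg : 1 ≤ g) (hr : 1 ≤ r) (hB : 1 ≤ B) :
    ∃ ε, (seed g o r B ε).Good := by
  have hpos : ∀ᶠ ε in 𝓝[>] (0 : ℝ), 0 < ε := self_mem_nhdsWithin
  have h := (((((hpos.and (ev_cross (g := g) (o := o) (B := B) hg hr)).and
    (ev_par_lt (g := g) (r := r) (B := B) hg hr)).and (ev_par_inj (g := g) (r := r) (B := B)
    hg hr)).and (ev_disc (g := g) (o := o) (r := r) (B := B) hg hr)).and
    (ev_pos (g := g) (o := o) (r := r) (B := B) hg hr hB)).and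
    (ev_group (g := g) (o := o) (r := r) (B := B) hg hr)
  obtain ⟨ε, ⟨⟨⟨⟨⟨⟨h0, h1⟩, h2⟩, h3⟩, h4⟩, h5⟩, h6⟩⟩ := h.exists
  refine ⟨ε, ?_, ?_, ?_, ?_, ?_, ?_, ?_⟩
  · exact fun j s a => h2 j s a
  · exact fun j s a s' a' h => h3 j s a s' a' h
  · exact fun s q => kap_pos hg hr h0 s q
  · exact fun s q => h4 s q
  · exact fun s s' hs b e q l => h1 s s' hs b e q l
  · intro s q q' hq
    obtain ⟨i, hi⟩ := Function.ne_iff.1 hq
    have hi' : (q i : ℕ) ≠ (q' i : ℕ) := fun h => hi (Fin.ext h)
    rcases lt_or_gt_of_ne hi' with hlt | hlt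
    · refine ⟨fun j => (cl i j, dg (q' i) j), eo i, lo i, ?_⟩
      have h7 := h6 s q i (q' i)
      have h8 := h6 s q' i (q' i)
      have h9 : (0 : ℝ) < (q' i : ℝ) - Th q i := by
        unfold Th
        have : ((q i : ℕ) : ℝ) + 1 ≤ ((q' i : ℕ) : ℝ) := by exact_mod_cast hlt
        linarith
      have h10 : ((q' i : ℕ) : ℝ) - Th q' i < 0 := by
        unfold Th
        linarith
      have h11 := (mul_pos_iff_of_pos_left h9).1 h7
      have h12 := neg_of_mul_pos_right h8 h10.le
      exact mul_neg_of_pos_of_neg h11 h12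
    · refine ⟨fun j => (cl i j, dg (q i) j), eo i, lo i, ?_⟩
      have h7 := h6 s q' i (q i)
      have h8 := h6 s q i (q i)
      have h9 : (0 : ℝ) < (q i : ℝ) - Th q' i := by
        unfold Th
        have : ((q' i : ℕ) : ℝ) + 1 ≤ ((q i : ℕ) : ℝ) := by exact_mod_cast hlt
        linarith
      have h10 : ((q i : ℕ) : ℝ) - Th q i < 0 := by
        unfold Th
        linarith
      have h11 := (mul_pos_iff_of_pos_left h9).1 h7
      have h12 := neg_of_mul_pos_right h8 h10.le
      exact mul_neg_of_neg_of_pos h12 h11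
  · exact ⟨_, _, h5⟩

end Conc

theorem construct (g o r B k F : ℕ) (hg : 1 ≤ g) (hr : 1 ≤ r) (hB : 1 ≤ B) (hk : 1 ≤ k) :
    (B ^ g) ^ ((2 * g + o + 2) * (k * r)) ≤
      numTypes (2 + 2 * g + o) (4 * k + F + 6 * g * r * B + 2 * o + k * r) *
        (4 * k + F + 6 * g * r * B + 2 * o + k * r) ^ (4 * k + F + 6 * g * r * B + 2 * o) := by
  haveI : NeZero g := ⟨by omega⟩
  haveI : NeZero B := ⟨by omega⟩
  obtain ⟨ε, hε⟩ := Conc.exists_good (g := g) (r := r) (B := B) o hg hr hB
  haveI : Nonempty (Fin 3 × Fin B) := ⟨(0, 0)⟩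
  have h := assemble (F := F) hε hk hr
  have h1 : Fintype.card (Cd g o B) = (B ^ g) ^ (2 * g + o + 2) := by
    simp only [Cd, IdxC, Fintype.card_fun, Fintype.card_sum, Fintype.card_prod, Fintype.card_fin,
      Fintype.card_bool]
    congr 1
    ring
  have h2 : 4 * k + F + (g * (r * Fintype.card (Fin 3 × Fin B)) * 2 + o * 2) =
      4 * k + F + 6 * g * r * B + 2 * o := by
    simp only [Fintype.card_prod, Fintype.card_fin]
    ring
  rw [h1, h2, ← pow_mul] at h
  exact h

end Pool.Agent.H4.Pol
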