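import Pool.Agent.H4.Pol.Seed

namespace Pool.Agent.H4.Pol

open Set Filter Topology

lemma ev_lt {f : ℝ → ℝ} {c : ℝ} (hf : ContinuousAt f 0) (h : f 0 < c) :
    ∀ᶠ x in 𝓝[>] (0 : ℝ), f x < c :=
  (hf.tendsto.eventually_lt_const h).filter_mono nhdsWithin_le_nhds

lemma ev_gt {f : ℝ → ℝ} {c : ℝ} (hf : ContinuousAt f 0) (h : c < f 0) :
    ∀ᶠ x in 𝓝[>] (0 : ℝ), c < f x :=
  (hf.tendsto.eventually_const_lt h).filter_mono nhdsWithin_le_nhds

lemma ev_ne {f : ℝ → ℝ} {c : ℝ} (hf : ContinuousAt f 0) (h : f 0 ≠ c) :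
    ∀ᶠ x in 𝓝[>] (0 : ℝ), f x ≠ c :=
  (hf.tendsto.eventually_ne h).filter_mono nhdsWithin_le_nhds

variable {g o r : ℕ} {J Code : Type}

namespace Seed

variable (S : Seed g o r J Code)

noncomputable def kap (s : Fin r) (q : Code) : ℝ := (S.c s q 0 + S.c s q 2 - 2 * S.c s q 1) / 2

noncomputable def bb (s : Fin r) (q : Code) : ℝ := (S.c s q 2 - S.c s q 0) / (2 * S.kap s q)

noncomputable def gam (s : Fin r) (q : Code) : ℝ := S.c s q 1 / S.kap s q

/-- the slack quadratic -/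
noncomputable def DD (lam x0 : ℝ) (s : Fin r) (q : Code) (x : ℝ) : ℝ :=
  (x - x0) ^ 2 + lam * S.bb s q * (x - x0) + lam ^ 2 * S.gam s q

noncomputable def CC (lam x0 : ℝ) (s : Fin r) (q : Code) : ℝ :=
  1 / (1 + x0 ^ 2 - lam * S.bb s q * x0 + lam ^ 2 * S.gam s q)

/-- the new points -/
noncomputable def np (lam x0 : ℝ) (s : Fin r) (q : Code) : XX g o :=
  ((-(S.CC lam x0 s q * (-2 * x0 + lam * S.bb s q)), -S.CC lam x0 s q),
    fun j => (S.CC lam x0 s q * lam ^ 2 / S.kap s q) • S.w s q j,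
    fun i => (S.CC lam x0 s q * lam ^ 2 / S.kap s q) * S.w0 s q i)

variable {S}

lemma Good.kap_pos' (hS : S.Good) (s : Fin r) (q : Code) : 0 < S.kap s q :=
  half_pos (hS.kap_pos s q)

lemma Good.disc' (hS : S.Good) (s : Fin r) (q : Code) : S.bb s q ^ 2 < 4 * S.gam s q := by
  have h := hS.disc s q
  have hk := hS.kap_pos' s q
  have h2 : S.c s q 0 + S.c s q 2 - 2 * S.c s q 1 = 2 * S.kap s q := by unfold kap; ring
  rw [h2] at h
  unfold bb gam
  rw [div_pow, div_lt_iff₀ (by positivity)]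
  calc (S.c s q 2 - S.c s q 0) ^ 2 < 8 * (2 * S.kap s q) * S.c s q 1 := h
    _ = 4 * (S.c s q 1 / S.kap s q) * (2 * S.kap s q) ^ 2 := by field_simp; ring

lemma Good.DD_pos (hS : S.Good) {lam : ℝ} (hl : 0 < lam) (x0 : ℝ) (s : Fin r) (q : Code)
    (x : ℝ) : 0 < S.DD lam x0 s q x := by
  have h := hS.disc' s q
  unfold DD
  nlinarith [sq_nonneg (x - x0 + lam * S.bb s q / 2), mul_pos hl hl,
    mul_pos (mul_pos hl hl) (sub_pos.2 h)]

lemma Good.den_pos (hS : S.Good) {lam : ℝ} (hl : 0 < lam) (x0 : ℝ) (s : Fin r) (q : Code) :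
    1 < 1 + x0 ^ 2 - lam * S.bb s q * x0 + lam ^ 2 * S.gam s q := by
  have h := hS.DD_pos hl x0 s q 0
  unfold DD at h
  nlinarith

lemma Good.CC_pos (hS : S.Good) {lam : ℝ} (hl : 0 < lam) (x0 : ℝ) (s : Fin r) (q : Code) :
    0 < S.CC lam x0 s q := by
  have h := hS.den_pos hl x0 s q
  unfold CC
  positivity

lemma Good.np_eval (hS : S.Good) {lam : ℝ} (hl : 0 < lam) (x0 : ℝ) (s : Fin r) (q : Code)
    (x : ℝ) (A : Fin g → P2) (b : Fin o → ℝ) :
    Lf (av x) A b (S.np lam x0 s q) = 1 - S.CC lam x0 s q * S.DD lam x0 s q x +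
      (S.CC lam x0 s q * lam ^ 2 / S.kap s q) *
        (∑ j, dot (A j) (S.w s q j) + ∑ i, b i * S.w0 s q i) := by
  have h := hS.den_pos hl x0 s q
  have hC : S.CC lam x0 s q * (1 + x0 ^ 2 - lam * S.bb s q * x0 + lam ^ 2 * S.gam s q) = 1 := by
    unfold CC
    rw [one_div, inv_mul_cancel₀ (by linarith)]
  rw [Lf_apply]
  have h1 : ∀ j, dot (A j) ((S.np lam x0 s q).2.1 j) =
      (S.CC lam x0 s q * lam ^ 2 / S.kap s q) * dot (A j) (S.w s q j) := by
    intro j
    simp only [np, dot, Prod.smul_fst, Prod.smul_snd, smul_eq_mul]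
    ring
  have h2 : ∀ i, b i * (S.np lam x0 s q).2.2 i =
      (S.CC lam x0 s q * lam ^ 2 / S.kap s q) * (b i * S.w0 s q i) := by
    intro i
    simp only [np]
    ring
  rw [Finset.sum_congr rfl fun j _ => h1 j, Finset.sum_congr rfl fun i _ => h2 i,
    ← Finset.mul_sum, ← Finset.mul_sum, mul_add]
  have h3 : dot (av x) (S.np lam x0 s q).1 = 1 - S.CC lam x0 s q * S.DD lam x0 s q x := by
    simp only [np, dot, av, DD]
    linear_combination hC
  rw [h3]
  ring

lemma Good.np_eval0 (hS : S.Good) {lam : ℝ} (x0 : ℝ) (s : Fin r) (q : Code)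
    (A : Fin g → P2) (b : Fin o → ℝ) :
    Lf 0 A b (S.np lam x0 s q) =
      (S.CC lam x0 s q * lam ^ 2 / S.kap s q) *
        (∑ j, dot (A j) (S.w s q j) + ∑ i, b i * S.w0 s q i) := by
  rw [Lf_apply]
  have h1 : ∀ j, dot (A j) ((S.np lam x0 s q).2.1 j) =
      (S.CC lam x0 s q * lam ^ 2 / S.kap s q) * dot (A j) (S.w s q j) := by
    intro j
    simp only [np, dot, Prod.smul_fst, Prod.smul_snd, smul_eq_mul]
    ring
  have h2 : ∀ i, b i * (S.np lam x0 s q).2.2 i =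
      (S.CC lam x0 s q * lam ^ 2 / S.kap s q) * (b i * S.w0 s q i) := by
    intro i
    simp only [np]
    ring
  rw [Finset.sum_congr rfl fun j _ => h1 j, Finset.sum_congr rfl fun i _ => h2 i,
    ← Finset.mul_sum, ← Finset.mul_sum, mul_add, dot_zero_left, zero_add]

/-- the value of a test functional at a new point of the same slot -/
lemma Good.np_test (hS : S.Good) {lam : ℝ} (hl : 0 < lam) (x0 : ℝ) (s' : Fin r) (q : Code)
    (l : Fin 3) (s : Fin r) (b : Fin g → J) (e : Fin o → Bool) :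
    Lf (av (x0 + lam * ((l : ℝ) - 1))) (fun j => av (S.par j s (b j))) (fun i => sg (e i))
      (S.np lam x0 s' q) = 1 + (S.CC lam x0 s' q * lam ^ 2 / S.kap s' q) *
        (S.val s b e s' q - S.c s' q l) := by
  rw [hS.np_eval hl]
  have hk := hS.kap_pos' s' q
  have h1 : S.DD lam x0 s' q (x0 + lam * ((l : ℝ) - 1)) = lam ^ 2 / S.kap s' q * S.c s' q l := by
    have h2 : S.c s' q 0 + S.c s' q 2 - 2 * S.c s' q 1 = 2 * S.kap s' q := by unfold kap; ring
    unfold DD bb gam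
    fin_cases l
    · simp
      field_simp
      linear_combination (-1 : ℝ) * h2
    · simp
      ring
    · simp
      field_simp
      linear_combination (-1 : ℝ) * h2
  rw [h1]
  unfold val
  ring

end Seed

end Pool.Agent.H4.Pol
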