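import Pool.Agent.H4.Pol.Count

namespace Pool.Agent.H4.Pol

open Set Filter Topology

/-- the plane -/
abbrev P2 := ℝ × ℝ

def dot (a b : P2) : ℝ := a.1 * b.1 + a.2 * b.2

def av (s : ℝ) : P2 := (s, s ^ 2 - 1)

noncomputable def qv (s t : ℝ) : P2 := ((s + t) / (1 + s * t), -1 / (1 + s * t))

def sg (e : Bool) : ℝ := if e then 1 else -1

lemma sg_mul_self (e : Bool) : sg e * sg e = 1 := by cases e <;> simp [sg]

lemma sg_mul_le (e e' : Bool) : sg e * sg e' ≤ 1 := by cases e <;> cases e' <;> simp [sg]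

lemma sg_mul_lt {e e' : Bool} (h : e ≠ e') : sg e * sg e' < 1 := by
  cases e <;> cases e' <;> simp_all [sg] <;> norm_num

lemma dot_zero_left (b : P2) : dot 0 b = 0 := by simp [dot]

lemma dot_zero_right (b : P2) : dot b 0 = 0 := by simp [dot]

lemma dot_av_qv {s t : ℝ} (h : 1 + s * t ≠ 0) (u : ℝ) :
    dot (av u) (qv s t) = 1 - (u - s) * (u - t) / (1 + s * t) := by
  simp only [dot, av, qv]
  field_simp
  ring

lemma one_add_pos {s t : ℝ} (hs : |s| < 1) (ht : |t| < 1) : 0 < 1 + s * t := by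
  have h : |s * t| < 1 := by
    rw [abs_mul]
    have := abs_nonneg s
    have := abs_nonneg t
    nlinarith
  have := (abs_lt.1 h).1
  linarith

lemma det_qv {s t u : ℝ} (hs : |s| < 1) (ht : |t| < 1) (hu : |u| < 1) (htu : t ≠ u) :
    (qv s t).1 * (qv s u).2 - (qv s t).2 * (qv s u).1 ≠ 0 := by
  have h1 := one_add_pos hs ht
  have h2 := one_add_pos hs hu
  have h3 : (qv s t).1 * (qv s u).2 - (qv s t).2 * (qv s u).1 =
      (u - t) / ((1 + s * t) * (1 + s * u)) := by
    simp only [qv]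
    field_simp
    ring
  rw [h3]
  exact div_ne_zero (sub_ne_zero.2 htu.symm) (mul_pos h1 h2).ne'

lemma qv_comm (s t : ℝ) : qv s t = qv t s := by
  simp only [qv, add_comm s t, mul_comm s t]

/-- a linear map on the plane vanishing on two independent vectors is zero -/
lemma lin2 {f : P2 →ₗ[ℝ] ℝ} {u v : P2} (hu : f u = 0) (hv : f v = 0)
    (h : u.1 * v.2 - u.2 * v.1 ≠ 0) : f = 0 := by
  have hdec : ∀ x : P2, f x = x.1 * f (1, 0) + x.2 * f (0, 1) := by
    intro x
    have : x = x.1 • ((1, 0) : P2) + x.2 • ((0, 1) : P2) := by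
      ext <;> simp
    conv_lhs => rw [this]
    rw [map_add, map_smul, map_smul, smul_eq_mul, smul_eq_mul]
  rw [hdec] at hu hv
  have h1 : (u.1 * v.2 - u.2 * v.1) * f (1, 0) = 0 := by
    linear_combination v.2 * hu - u.2 * hv
  have h2 : (u.1 * v.2 - u.2 * v.1) * f (0, 1) = 0 := by
    linear_combination u.1 * hv - v.1 * hu
  have h3 := (mul_eq_zero.1 h1).resolve_left h
  have h4 := (mul_eq_zero.1 h2).resolve_left h
  ext
  · simpa using h3
  · simpa using h4

variable (g o : ℕ)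

/-- the ambient space `ℝ² × (ℝ²)^g × ℝ^o` -/
abbrev XX := P2 × (Fin g → P2) × (Fin o → ℝ)

lemma finrank_XX : Module.finrank ℝ (XX g o) = 2 + 2 * g + o := by
  simp only [XX, P2, Module.finrank_prod, Module.finrank_self, Module.finrank_pi_fintype,
    Finset.sum_const, Finset.card_univ, Fintype.card_fin, smul_eq_mul]
  ring

variable {g o}

/-- the functional with coefficients `ν, A, b` -/
def Lf (n : P2) (A : Fin g → P2) (b : Fin o → ℝ) : XX g o →ₗ[ℝ] ℝ where
  toFun x := dot n x.1 + ∑ j, dot (A j) (x.2.1 j) + ∑ i, b i * x.2.2 i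
  map_add' x y := by
    simp only [dot, Prod.fst_add, Prod.snd_add, Pi.add_apply, mul_add, Finset.sum_add_distrib]
    ring
  map_smul' c x := by
    simp only [dot, Prod.smul_fst, Prod.smul_snd, Pi.smul_apply, smul_eq_mul, RingHom.id_apply,
      mul_add, Finset.mul_sum]
    congr 1
    · congr 1
      · ring
      · refine Finset.sum_congr rfl fun j _ => ?_
        ring
    · refine Finset.sum_congr rfl fun j _ => ?_
      ring

lemma Lf_apply (n : P2) (A : Fin g → P2) (b : Fin o → ℝ) (x : XX g o) :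
    Lf n A b x = dot n x.1 + ∑ j, dot (A j) (x.2.1 j) + ∑ i, b i * x.2.2 i := rfl

lemma Lf_planar (n : P2) (A : Fin g → P2) (b : Fin o → ℝ) (x : P2) :
    Lf n A b (x, 0, 0) = dot n x := by
  simp [Lf_apply, dot_zero_right]

lemma Lf_block (n : P2) (A : Fin g → P2) (b : Fin o → ℝ) (j : Fin g) (x : P2) :
    Lf n A b (0, Pi.single j x, 0) = dot (A j) x := by
  rw [Lf_apply]
  simp only [dot_zero_right, Pi.zero_apply, mul_zero, Finset.sum_const_zero, add_zero, zero_add]
  rw [Finset.sum_eq_single j]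
  · simp
  · intro i _ hi
    simp [Pi.single_eq_of_ne hi, dot_zero_right]
  · simp

lemma Lf_seg (n : P2) (A : Fin g → P2) (b : Fin o → ℝ) (i : Fin o) (x : ℝ) :
    Lf n A b (0, 0, Pi.single i x) = b i * x := by
  rw [Lf_apply]
  simp only [dot_zero_right, Pi.zero_apply, Finset.sum_const_zero, zero_add]
  rw [Finset.sum_eq_single i]
  · simp
  · intro j _ hj
    simp [Pi.single_eq_of_ne hj]
  · simp

/-- The numerical data of the construction. -/
structure Seed (g o r : ℕ) (J Code : Type) where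
  par : Fin g → Fin r → J → ℝ
  w : Fin r → Code → Fin g → P2
  w0 : Fin r → Code → Fin o → ℝ
  c : Fin r → Code → Fin 3 → ℝ

variable {r : ℕ} {J Code : Type}

def Seed.val (S : Seed g o r J Code) (s : Fin r) (b : Fin g → J) (e : Fin o → Bool)
    (s' : Fin r) (q : Code) : ℝ :=
  ∑ j, dot (av (S.par j s (b j))) (S.w s' q j) + ∑ i, sg (e i) * S.w0 s' q i

structure Seed.Good (S : Seed g o r J Code) : Prop where
  par_lt : ∀ j s a, |S.par j s a| < 1
  par_inj : ∀ j s a s' a', S.par j s a = S.par j s' a' → s = s' ∧ a = a'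
  kap_pos : ∀ s q, 0 < S.c s q 0 + S.c s q 2 - 2 * S.c s q 1
  disc : ∀ s q, (S.c s q 2 - S.c s q 0) ^ 2 <
    8 * (S.c s q 0 + S.c s q 2 - 2 * S.c s q 1) * S.c s q 1
  cross : ∀ s s', s ≠ s' → ∀ b e q l, S.val s b e s' q < S.c s' q l
  sep : ∀ s q q', q ≠ q' → ∃ b e l,
    (S.val s b e s q - S.c s q l) * (S.val s b e s q' - S.c s q' l) < 0
  pos : ∃ b e, ∀ s q, S.c s q 1 < S.val s b e s q

end Pool.Agent.H4.Pol
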